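import Mathlib
import Pool.Agent.H262R2.UM.BV1

/-! The bad conductors and the moduli they spoil. -/

open Finset Filter Topology
open scoped Pointwise

namespace Pool.Agent.H262R2.UP

open Pool.Agent.H378R2 Pool.Agent.H378R2.LSBV Pool.Agent.H398R2.BV Pool.Agent.H262R2.UM

/-- the pairs (cofactor, divisor of `a ^ 2`) -/
def GPn (U a : ℕ) : Finset (ℕ × ℕ) :=
  (Icc 1 U ×ˢ (a ^ 2).divisors).filter (fun p => Squarefree p.1 ∧ p.1.Coprime a ∧ p.2 * p.1 ≠ 1)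

/-- mass of the conductors attached to `a` at scale `Y` -/
noncomputable def GGn (U : ℕ) (Y : ℝ) (a : ℕ) : ℝ := ∑ p ∈ GPn U a, TT Y (p.2 * p.1)

theorem mem_GPn {U a : ℕ} {p : ℕ × ℕ} : p ∈ GPn U a ↔
    ((1 ≤ p.1 ∧ p.1 ≤ U) ∧ (p.2 ∣ a ^ 2 ∧ a ^ 2 ≠ 0)) ∧ Squarefree p.1 ∧ p.1.Coprime a ∧ p.2 * p.1 ≠ 1 := by
  unfold GPn
  rw [mem_filter, mem_product, mem_Icc, Nat.mem_divisors]

theorem card_div_sq (a : ℕ) : #(a ^ 2).divisors ≤ #a.divisors ^ 2 := by
  rw [sq a, Nat.divisors_mul, sq]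
  exact card_mul_le

theorem GPn_card (U a : ℕ) : #(GPn U a) ≤ U * #a.divisors ^ 2 := by
  unfold GPn
  refine (card_filter_le _ _).trans ?_
  rw [card_product, Nat.card_Icc, Nat.add_sub_cancel]
  exact Nat.mul_le_mul_left U (card_div_sq a)

/-- the least `s` with `d ∣ s ^ 2` -/
noncomputable def rt (d : ℕ) : ℕ := sInf {s : ℕ | 1 ≤ s ∧ d ∣ s ^ 2}

theorem rt_mem {d : ℕ} (hd : 1 ≤ d) : 1 ≤ rt d ∧ d ∣ rt d ^ 2 := by
  have : {s : ℕ | 1 ≤ s ∧ d ∣ s ^ 2}.Nonempty := ⟨d, hd, Dvd.intro_left _ (by ring : d * d = d ^ 2)⟩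
  exact Nat.sInf_mem this

theorem rt_dvd {d a : ℕ} (hd : 1 ≤ d) (ha : 1 ≤ a) (h : d ∣ a ^ 2) : rt d ∣ a := by
  obtain ⟨hs1, hs2⟩ := rt_mem hd
  have hg : d ∣ (Nat.gcd a (rt d)) ^ 2 := by
    have : (Nat.gcd a (rt d)) ^ 2 = Nat.gcd (a ^ 2) ((rt d) ^ 2) := Nat.pow_gcd_pow.symm
    rw [this]
    exact Nat.dvd_gcd h hs2
  have hg1 : 1 ≤ Nat.gcd a (rt d) := Nat.gcd_pos_of_pos_left _ ha
  have h3 : rt d ≤ Nat.gcd a (rt d) := Nat.sInf_le ⟨hg1, hg⟩
  have h4 : Nat.gcd a (rt d) = rt d := le_antisymm (Nat.le_of_dvd hs1 (Nat.gcd_dvd_right _ _)) h3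
  rw [← h4]
  exact Nat.gcd_dvd_left _ _

theorem rt_ge {d : ℕ} (hd : 1 ≤ d) : d ≤ rt d ^ 2 := by
  obtain ⟨hs1, hs2⟩ := rt_mem hd
  exact Nat.le_of_dvd (by positivity) hs2

/-- the spoiled moduli at one scale -/
theorem struct1 (N U D B : ℕ) : ∀ᶠ X : ℝ in atTop, ∀ Y : ℝ, X ≤ Y → Y ≤ X ^ 2 → ∃ F : Finset ℕ,
    (#F : ℝ) ≤ (Real.log X) ^ (N + 2 * U + 2 * D + 11) ∧ (∀ f ∈ F, (Real.log X) ^ B < f) ∧
    ∀ a : ℕ, 1 ≤ a → (a : ℝ) ≤ X ^ (1 / 1000 : ℝ) → (#a.divisors : ℝ) ≤ (Real.log X) ^ D →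
      (∀ f ∈ F, ¬ f ∣ a) → GGn ⌊(Real.log X) ^ U⌋₊ Y a ≤ Y / (Real.log X) ^ N := by
  classical
  set N1 := N + U + 2 * D + 2 with hN1
  set B1 := 2 * B + U + 1 with hB1
  set A1 := U + 2 * D + B1 + N + 2 with hA1
  obtain ⟨C0, X1, hls⟩ := ls_sum
  set C1 := max C0 1 with hC1
  have hC1p : 1 ≤ C1 := le_max_right _ _
  obtain ⟨X2, hX2⟩ := sw_phi A1 B1
  filter_upwards [eventually_ge_atTop X1, eventually_ge_atTop X2, eventually_ge_atTop (4 : ℝ),
    Real.tendsto_log_atTop.eventually_ge_atTop (256 * C1),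
    Pool.Agent.H398R2.BV.ev_log 1 U (1 / 100) (by norm_num)] with X h1 h2 h3 h4 h5
  intro Y hXY hYX
  have hX0 : 0 < X := by linarith
  have hX1 : 1 ≤ X := by linarith
  have hY0 : 0 < Y := by linarith
  set L := Real.log X with hL
  have hL256 : 256 ≤ L := by nlinarith
  have hL1 : 1 ≤ L := by linarith
  have hL0 : 0 < L := by linarith
  set UU := ⌊L ^ U⌋₊ with hUU
  have hUUle : (UU : ℝ) ≤ L ^ U := Nat.floor_le (by positivity)
  set R := ⌊Y ^ (1 / 50 : ℝ)⌋₊ with hR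
  set Bad : Finset ℕ := (Icc 2 R).filter (fun f : ℕ => L ^ B1 < (f : ℝ) ∧ Y / L ^ N1 < TT Y f) with hBad
  set F : Finset ℕ := Bad.biUnion (fun f => ((Icc 1 UU).filter (fun u => u ∣ f)).image (fun u => rt (f / u))) with hF
  have hBadc : (#Bad : ℝ) ≤ L ^ (N1 + 9) := by
    have h6 : (#Bad : ℝ) * (Y / L ^ N1) ≤ ∑ f ∈ Icc 2 R, TT Y f := by
      rw [← nsmul_eq_mul]
      refine (card_nsmul_le_sum Bad (TT Y) (Y / L ^ N1) (fun f hf => ?_)).trans ?_
      · rw [hBad, mem_filter] at hf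
        exact hf.2.2.le
      · exact sum_le_sum_of_subset_of_nonneg (filter_subset _ _) (fun f _ _ => TT_nonneg Y f)
    have h7 : ∑ f ∈ Icc 2 R, TT Y f ≤ C0 * Y * (Real.log Y) ^ 8 := hls Y (h1.trans hXY)
    have h9 : Real.log Y ≤ 2 * L := by
      have := Real.log_le_log hY0 hYX
      rw [Real.log_pow] at this
      exact_mod_cast this
    have h10 : 0 ≤ Real.log Y := Real.log_nonneg (hX1.trans hXY)
    have h8 : C0 * Y * (Real.log Y) ^ 8 ≤ C1 * Y * (2 * L) ^ 8 := by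
      have h8 : C0 ≤ C1 := le_max_left _ _
      calc C0 * Y * (Real.log Y) ^ 8 ≤ C1 * Y * (Real.log Y) ^ 8 := by gcongr
        _ ≤ C1 * Y * (2 * L) ^ 8 := by gcongr
    have h11 : (#Bad : ℝ) * (Y / L ^ N1) ≤ C1 * Y * (2 * L) ^ 8 := (h6.trans h7).trans h8
    rw [← mul_div_assoc, div_le_iff₀ (by positivity)] at h11
    have h12 : (#Bad : ℝ) * Y ≤ (L ^ (N1 + 9)) * Y := by
      refine h11.trans ?_
      calc C1 * Y * (2 * L) ^ 8 * L ^ N1 = (256 * C1) * (L ^ 8 * L ^ N1) * Y := by ring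
        _ ≤ L * (L ^ 8 * L ^ N1) * Y := by gcongr
        _ = (L ^ (N1 + 9)) * Y := by
            have e1 : L * (L ^ 8 * L ^ N1) = L ^ (N1 + 9) := by
              rw [← pow_add, ← pow_succ']
              congr 1
              ring
            rw [e1]
    exact le_of_mul_le_mul_right h12 hY0
  refine ⟨F, ?_, ?_, ?_⟩
  · have h6 : #F ≤ #Bad * UU := by
      rw [hF]
      refine card_biUnion_le_card_mul _ _ _ (fun f _ => ?_)
      refine card_image_le.trans ((card_filter_le _ _).trans ?_)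
      rw [Nat.card_Icc, Nat.add_sub_cancel]
    calc (#F : ℝ) ≤ #Bad * UU := by exact_mod_cast h6
      _ ≤ L ^ (N1 + 9) * L ^ U := by gcongr
      _ = L ^ (N + 2 * U + 2 * D + 11) := by rw [← pow_add]; congr 1; rw [hN1]; ring
  · intro s hs
    rw [hF, mem_biUnion] at hs
    obtain ⟨f, hf, hs⟩ := hs
    rw [mem_image] at hs
    obtain ⟨u, hu, rfl⟩ := hs
    rw [mem_filter, mem_Icc] at hu
    obtain ⟨⟨hu1, hu2⟩, hu3⟩ := hu
    rw [hBad, mem_filter, mem_Icc] at hf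
    obtain ⟨⟨hf1, hf2⟩, hf3, hf4⟩ := hf
    have hfu : 1 ≤ f / u := Nat.div_pos (Nat.le_of_dvd (by omega) hu3) hu1
    have h6 := rt_ge hfu
    have hmul : f / u * u = f := Nat.div_mul_cancel hu3
    have h7 : (f : ℝ) ≤ (rt (f / u) : ℝ) ^ 2 * L ^ U := by
      calc (f : ℝ) = ((f / u * u : ℕ) : ℝ) := by rw [hmul]
        _ = ((f / u : ℕ) : ℝ) * u := by push_cast; ring
        _ ≤ (rt (f / u) : ℝ) ^ 2 * L ^ U := by
            apply mul_le_mul _ _ (Nat.cast_nonneg _) (by positivity)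
            · exact_mod_cast h6
            · exact le_trans (by exact_mod_cast hu2) hUUle
    have h8 : (L ^ B) ^ 2 < (rt (f / u) : ℝ) ^ 2 := by
      have h9 : (L ^ B) ^ 2 * L ^ U ≤ L ^ B1 := by
        rw [← pow_mul, ← pow_add]
        apply pow_le_pow_right₀ hL1
        rw [hB1]
        omega
      have h10 : (L ^ B) ^ 2 * L ^ U < (rt (f / u) : ℝ) ^ 2 * L ^ U := lt_of_le_of_lt h9 (hf3.trans_le h7)
      exact lt_of_mul_lt_mul_right h10 (by positivity)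
    exact lt_of_pow_lt_pow_left₀ 2 (Nat.cast_nonneg _) h8
  · intro a ha haX hτ hFa
    have hterm : ∀ p ∈ GPn UU a, TT Y (p.2 * p.1) ≤ Y / L ^ N1 := by
      intro p hp
      rw [mem_GPn] at hp
      obtain ⟨⟨⟨hu1, hu2⟩, hd, ha2⟩, hsq, hcop, hne⟩ := hp
      have hd1 : 0 < p.2 := Nat.pos_of_dvd_of_pos hd (by positivity)
      have hpos : 0 < p.2 * p.1 := Nat.mul_pos hd1 hu1
      by_cases hsmall : ((p.2 * p.1 : ℕ) : ℝ) ≤ L ^ B1
      · refine (TT_le Y (p.2 * p.1) hpos (Y / L ^ A1) (by positivity) (fun χ hχ => ?_)).trans ?_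
        · exact hX2 X h2 Y hXY (p.2 * p.1) (by omega) hsmall χ hχ
        · calc ((p.2 * p.1 : ℕ) : ℝ) * (Y / L ^ A1) ≤ L ^ B1 * (Y / L ^ A1) := by gcongr
            _ = Y / L ^ N1 := by
                have e1 : L ^ A1 = L ^ B1 * L ^ N1 := by
                  rw [← pow_add]
                  congr 1
                  rw [hA1, hN1]
                  ring
                rw [e1]
                have e2 : L ^ B1 ≠ 0 := by positivity
                have e3 : L ^ N1 ≠ 0 := by positivity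
                field_simp
      · push Not at hsmall
        by_contra hcon
        push Not at hcon
        apply hFa (rt p.2) _ (rt_dvd hd1 ha hd)
        rw [hF, mem_biUnion]
        refine ⟨p.2 * p.1, ?_, ?_⟩
        · rw [hBad, mem_filter, mem_Icc]
          refine ⟨⟨by omega, ?_⟩, hsmall, hcon⟩
          apply Nat.le_floor
          have hd2 : (p.2 : ℝ) ≤ (a : ℝ) ^ 2 := by exact_mod_cast Nat.le_of_dvd (by positivity) hd
          have hp1 : (p.1 : ℝ) ≤ X ^ (1 / 100 : ℝ) := by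
            have : (p.1 : ℝ) ≤ UU := by exact_mod_cast hu2
            rw [one_mul] at h5
            linarith
          push_cast
          calc (p.2 : ℝ) * p.1 ≤ (X ^ (1 / 1000 : ℝ)) ^ 2 * X ^ (1 / 100 : ℝ) := by
                apply mul_le_mul (hd2.trans _) hp1 (Nat.cast_nonneg _) (by positivity)
                exact pow_le_pow_left₀ (Nat.cast_nonneg _) haX 2
            _ = X ^ (2 / 1000 + 1 / 100 : ℝ) := by
                rw [← Real.rpow_natCast, ← Real.rpow_mul hX0.le, Real.rpow_add hX0]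
                norm_num
            _ ≤ X ^ (1 / 50 : ℝ) := Real.rpow_le_rpow_of_exponent_le hX1 (by norm_num)
            _ ≤ Y ^ (1 / 50 : ℝ) := Real.rpow_le_rpow hX0.le hXY (by norm_num)
        · rw [mem_image]
          refine ⟨p.1, ?_, ?_⟩
          · rw [mem_filter, mem_Icc]
            exact ⟨⟨hu1, hu2⟩, Dvd.intro_left _ rfl⟩
          · rw [Nat.mul_div_cancel _ hu1]
    unfold GGn
    have h6 := sum_le_card_nsmul (GPn UU a) (fun p => TT Y (p.2 * p.1)) (Y / L ^ N1) hterm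
    rw [nsmul_eq_mul] at h6
    refine h6.trans ?_
    have h7 : (#(GPn UU a) : ℝ) ≤ L ^ (U + 2 * D) := by
      calc (#(GPn UU a) : ℝ) ≤ (UU : ℝ) * (#a.divisors : ℝ) ^ 2 := by exact_mod_cast GPn_card UU a
        _ ≤ L ^ U * (L ^ D) ^ 2 := by gcongr
        _ = L ^ (U + 2 * D) := by rw [← pow_mul, ← pow_add]; congr 1; ring
    calc (#(GPn UU a) : ℝ) * (Y / L ^ N1) ≤ L ^ (U + 2 * D) * (Y / L ^ N1) := by gcongr
      _ = Y / L ^ N / L ^ 2 := by
          have e1 : L ^ N1 = L ^ (U + 2 * D) * L ^ N * L ^ 2 := by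
            rw [← pow_add, ← pow_add]
            congr 1
            rw [hN1]
            ring
          rw [e1]
          have e2 : L ^ (U + 2 * D) ≠ 0 := by positivity
          have e3 : L ^ N ≠ 0 := by positivity
          field_simp
      _ ≤ Y / L ^ N := by
          apply div_le_self (by positivity)
          exact one_le_pow₀ hL1

/-- the spoiled moduli at all relevant scales -/
theorem struct2 (N U D B : ℕ) : ∀ᶠ X : ℝ in atTop, ∃ F : Finset ℕ,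
    (#F : ℝ) ≤ (Real.log X) ^ (N + 2 * U + 2 * D + 13) ∧ (∀ f ∈ F, (Real.log X) ^ B < f) ∧
    ∀ a : ℕ, 1 ≤ a → (a : ℝ) ≤ X ^ (1 / 1000 : ℝ) → (#a.divisors : ℝ) ≤ (Real.log X) ^ D →
      (∀ f ∈ F, ¬ f ∣ a) → ∀ k : ℕ, X ≤ Real.exp k → Real.exp k ≤ X ^ 2 →
        GGn ⌊(Real.log X) ^ U⌋₊ (Real.exp k) a ≤ Real.exp k / (Real.log X) ^ N := by
  classical
  filter_upwards [struct1 N U D B, eventually_ge_atTop (4 : ℝ), Real.tendsto_log_atTop.eventually_ge_atTop 3]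
    with X h1 h2 h3
  set L := Real.log X with hL
  have hch : ∀ k : ℕ, ∃ F : Finset ℕ, (#F : ℝ) ≤ L ^ (N + 2 * U + 2 * D + 11) ∧ (∀ f ∈ F, L ^ B < f) ∧
      (X ≤ Real.exp k → Real.exp k ≤ X ^ 2 →
      ∀ a : ℕ, 1 ≤ a → (a : ℝ) ≤ X ^ (1 / 1000 : ℝ) → (#a.divisors : ℝ) ≤ L ^ D →
      (∀ f ∈ F, ¬ f ∣ a) → GGn ⌊L ^ U⌋₊ (Real.exp k) a ≤ Real.exp k / L ^ N) := by
    intro k
    by_cases hk : X ≤ Real.exp k ∧ Real.exp k ≤ X ^ 2
    · obtain ⟨F, hF1, hF2, hF3⟩ := h1 (Real.exp k) hk.1 hk.2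
      exact ⟨F, hF1, hF2, fun _ _ => hF3⟩
    · refine ⟨∅, ?_, ?_, ?_⟩
      · rw [card_empty, Nat.cast_zero]
        positivity
      · intro f hf
        exact absurd hf (notMem_empty f)
      · intro h4 h5
        exact absurd ⟨h4, h5⟩ hk
  choose F hF1 hF2 hF3 using hch
  refine ⟨(Icc 1 ⌊2 * L⌋₊).biUnion F, ?_, ?_, ?_⟩
  · have h4 : (#((Icc 1 ⌊2 * L⌋₊).biUnion F) : ℝ) ≤ ∑ k ∈ Icc 1 ⌊2 * L⌋₊, (#(F k) : ℝ) := by
      exact_mod_cast card_biUnion_le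
    refine h4.trans ?_
    have h5 := sum_le_card_nsmul (Icc 1 ⌊2 * L⌋₊) (fun k => (#(F k) : ℝ)) (L ^ (N + 2 * U + 2 * D + 11))
      (fun k _ => hF1 k)
    rw [Nat.card_Icc, Nat.add_sub_cancel, nsmul_eq_mul] at h5
    refine h5.trans ?_
    have h6 : (⌊2 * L⌋₊ : ℝ) ≤ L ^ 2 := by
      refine (Nat.floor_le (by positivity)).trans ?_
      nlinarith
    calc (⌊2 * L⌋₊ : ℝ) * L ^ (N + 2 * U + 2 * D + 11) ≤ L ^ 2 * L ^ (N + 2 * U + 2 * D + 11) := by gcongr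
      _ = L ^ (N + 2 * U + 2 * D + 13) := by rw [← pow_add]; congr 1; ring
  · intro f hf
    rw [mem_biUnion] at hf
    obtain ⟨k, _, hk⟩ := hf
    exact hF2 k f hk
  · intro a ha haX hτ hFa k hk1 hk2
    apply hF3 k hk1 hk2 a ha haX hτ
    intro f hf
    apply hFa f
    rw [mem_biUnion]
    refine ⟨k, ?_, hf⟩
    rw [mem_Icc]
    constructor
    · by_contra h0
      have hk0 : k = 0 := by omega
      rw [hk0, Nat.cast_zero, Real.exp_zero] at hk1
      linarith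
    · apply Nat.le_floor
      have := Real.log_le_log (Real.exp_pos _) hk2
      rw [Real.log_exp, Real.log_pow] at this
      exact_mod_cast this

end Pool.Agent.H262R2.UP
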