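import Mathlib
import Pool.Agent.H262R2.UM.BV3
import Pool.Agent.H262R2.UP.Gd

/-! Bombieri-Vinogradov relative to `a * W` for a small `W`. -/

open Finset Filter Topology

namespace Pool.Agent.H262R2.UP

open Pool.Agent.H378R2 Pool.Agent.H378R2.LSBV Pool.Agent.H398R2.BV Pool.Agent.Helper112 Pool.Agent.H262R2.UM

/-- the small primes -/
noncomputable def zz (Cw : ℕ) (X : ℝ) : ℕ := ⌊(Cw : ℝ) * Real.log (Real.log X)⌋₊

/-- the small modulus -/
noncomputable def Wz (Cw : ℕ) (X : ℝ) : ℕ := primorial (zz Cw X)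

theorem Wz_pos (Cw : ℕ) (X : ℝ) : 0 < Wz Cw X := primorial_pos _

theorem Wz_sqf (Cw : ℕ) (X : ℝ) : Squarefree (Wz Cw X) := by
  unfold Wz primorial
  apply Finset.squarefree_prod_of_pairwise_isCoprime
  · intro p hp q hq hpq
    have h1 : p.Prime := (mem_filter.1 hp).2
    have h2 : q.Prime := (mem_filter.1 hq).2
    exact Nat.coprime_iff_isRelPrime.mp ((Nat.coprime_primes h1 h2).mpr hpq)
  · intro p hp
    exact (mem_filter.1 hp).2.squarefree

theorem Wz_le (Cw : ℕ) (X : ℝ) (hX : 1 ≤ Real.log X) : (Wz Cw X : ℝ) ≤ (Real.log X) ^ (2 * Cw) := by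
  have hl : 0 ≤ Real.log (Real.log X) := Real.log_nonneg hX
  have h1 : (Wz Cw X : ℝ) ≤ (4 : ℝ) ^ (zz Cw X) := by
    unfold Wz
    exact_mod_cast primorial_le_four_pow (zz Cw X)
  have h4 : Real.log 4 ≤ 2 := by
    have : (4:ℝ) = 2 ^ 2 := by norm_num
    rw [this, Real.log_pow]
    have := Real.log_two_lt_d9
    push_cast
    linarith
  have h5 : 0 ≤ Real.log 4 := Real.log_nonneg (by norm_num)
  have h2 : (zz Cw X : ℝ) ≤ Cw * Real.log (Real.log X) := Nat.floor_le (by positivity)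
  refine h1.trans ?_
  calc (4:ℝ) ^ (zz Cw X) = Real.exp (Real.log 4 * zz Cw X) := by
        rw [Real.exp_mul, Real.exp_log (by norm_num), Real.rpow_natCast]
    _ ≤ Real.exp (((2 * Cw : ℕ) : ℝ) * Real.log (Real.log X)) := by
        apply Real.exp_le_exp.mpr
        calc Real.log 4 * zz Cw X ≤ 2 * (Cw * Real.log (Real.log X)) :=
              mul_le_mul h4 h2 (by positivity) (by norm_num)
          _ = _ := by push_cast; ring
    _ = (Real.log X) ^ (2 * Cw) := by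
        rw [Real.exp_nat_mul, Real.exp_log (by linarith)]

/-- the small cofactors -/
theorem TA_smalln (U : ℕ) (Y : ℝ) (a : ℕ) (F : Finset ℕ)
    (hF : ∀ m ∈ F, 1 ≤ m ∧ m ≤ U ∧ Squarefree m ∧ m.Coprime a) :
    ∑ m ∈ F, TA Y a m ≤ GGn U Y a := by
  classical
  have e1 : ∑ m ∈ F, TA Y a m = ∑ p ∈ (F ×ˢ (a ^ 2).divisors).filter
      (fun p => p.2 * p.1 ≠ 1), TT Y (p.2 * p.1) := by
    rw [sum_filter, sum_product]
    refine sum_congr rfl fun m hm => ?_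
    unfold TA
    rw [if_pos (hF m hm).2.2.2, sum_filter]
  rw [e1]
  unfold GGn
  apply sum_le_sum_of_subset_of_nonneg
  · intro p hp
    rw [mem_filter, mem_product, Nat.mem_divisors] at hp
    rw [mem_GPn]
    obtain ⟨h1, h2, h3, h4⟩ := hF p.1 hp.1.1
    exact ⟨⟨⟨h1, h2⟩, hp.1.2⟩, h3, h4, hp.2⟩
  · intro p _ _
    exact TT_nonneg Y _

/-- the sum over the pairs for one modulus -/
theorem pairs_boundn (A : ℕ) (Y C5 M L : ℝ) (hC5 : 0 < C5)
    (hwt : ∀ b : ℕ, 1 ≤ b → LSBV.wt A b ≤ C5 / Real.sqrt b) (U a P0 W R D k F : ℕ)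
    (ha : 1 ≤ a) (haP : a ∣ P0) (hW : Squarefree W)
    (hL : 1 ≤ L) (hD : ∀ b : ℕ, D < b → L ^ (2 * k) ≤ b)
    (hF : W * R * a ^ 2 ≤ F)
    (hall : ∑ f ∈ Icc 2 F, TT Y f ≤ M * L ^ k)
    (hG : GGn U Y a ≤ M) (hU : W * D ≤ U) :
    ∑ p ∈ PS (Wr a W) P0 R, LSBV.wt A p.2 * TA Y a (p.1 * p.2) ≤ C5 * 2 * M := by
  classical
  obtain ⟨hW1, hdvd, hmul, hcopa, hcop⟩ := Wr_facts ha hW
  have hW0 : 0 < W := Nat.pos_of_ne_zero hW.ne_zero
  have h := three_cases (PS (Wr a W) P0 R) (fun p hp => (mem_PS.1 hp).1.2.1.1) (fun p => TA Y a (p.1 * p.2))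
    (fun _ => TA_nonneg Y a _) A C5 hC5 hwt D k L hL hD (fun _ => True) M M 0 ?_ ?_ ?_
  · refine h.trans (le_of_eq ?_)
    ring
  · have h1 : ∑ p ∈ PS (Wr a W) P0 R, TA Y a (p.1 * p.2) ≤ ∑ m ∈ Icc 1 (W * R), TA Y a m := by
      apply pair_inj (TA Y a) (TA_nonneg Y a) (Wr a W) P0 R
      · exact filter_subset _ _
      · intro p hp
        rw [mem_PS] at hp
        obtain ⟨⟨⟨h2, h3⟩, ⟨h4, h5⟩, h6, h7⟩, h8⟩ := hp
        rw [mem_Icc]
        have h9 : 0 < p.1 := Nat.pos_of_dvd_of_pos h2 hW1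
        refine ⟨Nat.mul_pos h9 h4, Nat.mul_le_mul ?_ h5⟩
        exact (Nat.le_of_dvd hW0 (h2.trans hdvd))
    exact (h1.trans (TA_sum Y a _ F ha hF)).trans hall
  · have h1 : ∑ p ∈ (PS (Wr a W) P0 R).filter (fun p => p.2 ≤ D ∧ True), TA Y a (p.1 * p.2) ≤
        ∑ m ∈ (Icc 1 U).filter (fun m => Squarefree m ∧ m.Coprime a), TA Y a m := by
      apply pair_inj (TA Y a) (TA_nonneg Y a) (Wr a W) P0 R
      · exact (filter_subset _ _).trans (filter_subset _ _)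
      · intro p hp
        rw [mem_filter] at hp
        obtain ⟨hp, hpD, _⟩ := hp
        rw [mem_PS] at hp
        obtain ⟨⟨⟨h2, h3⟩, ⟨h4, h5⟩, h6, h7⟩, h8⟩ := hp
        have h9 : 0 < p.1 := Nat.pos_of_dvd_of_pos h2 hW1
        rw [mem_filter, mem_Icc]
        have hc2 : p.2.Coprime (Wr a W) := Nat.Coprime.coprime_mul_right_right h7
        have hc3 : p.2.Coprime P0 := Nat.Coprime.coprime_mul_left_right h7
        refine ⟨⟨Nat.mul_pos h9 h4, ?_⟩, ?_, ?_⟩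
        · exact (Nat.mul_le_mul (Nat.le_of_dvd hW0 (h2.trans hdvd)) hpD).trans hU
        · rw [Nat.squarefree_mul (hc2.coprime_dvd_right h2).symm]
          exact ⟨hW.squarefree_of_dvd (h2.trans hdvd), h6⟩
        · exact Nat.Coprime.mul_left (hcopa.coprime_dvd_left h2) (hc3.coprime_dvd_right haP)
    refine h1.trans (le_trans ?_ hG)
    apply TA_smalln U Y a
    intro m hm
    rw [mem_filter, mem_Icc] at hm
    exact ⟨hm.1.1, hm.1.2, hm.2.1, hm.2.2⟩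
  · apply le_of_eq
    apply sum_eq_zero
    intro p hp
    rw [mem_filter] at hp
    exact absurd trivial hp.2.2

/-- Bombieri-Vinogradov relative to `a * W` -/
theorem bvs (A Cw : ℕ) : ∃ N U : ℕ, ∀ᶠ X : ℝ in atTop, ∀ (Y : ℝ) (a P0 : ℕ), X ≤ Y → Y ≤ X ^ 2 → 1 ≤ a →
    (a : ℝ) ≤ X ^ (1 / 1000 : ℝ) → a ∣ P0 → GGn ⌊(Real.log X) ^ U⌋₊ Y a ≤ Y / (Real.log X) ^ N →
    ∀ b : ℕ → ℕ, (∀ q, 1 ≤ q → (b q).Coprime (a * Wz Cw X * q)) →
      ∑ q ∈ QQ (Wz Cw X) P0 ⌊X ^ (1 / 100 : ℝ)⌋₊,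
        (q.divisors.card : ℝ) ^ A * |EPhi Y (a * Wz Cw X * q) (b q)|
        ≤ Y / (((a * Wz Cw X).totient : ℝ) * (Real.log X) ^ A) := by
  classical
  set Kw := 2 ^ (A + 1) with hKw
  set N := Kw + A + 2 with hN
  set kk := N + 8 with hkk
  refine ⟨N, 2 * Cw + 2 * kk, ?_⟩
  obtain ⟨C0, X1, hls⟩ := ls_sum
  set C1 := max C0 1 with hC1
  have hC1p : 1 ≤ C1 := le_max_right _ _
  obtain ⟨C5, hC5, hwt⟩ := wt_le A
  have hlog : Tendsto Real.log atTop atTop := Real.tendsto_log_atTop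
  filter_upwards [triv_err A C5 hC5 hwt, eventually_ge_atTop X1, eventually_ge_atTop (4:ℝ),
    ev_log 1 (2 * Cw) (1 / 500) (by norm_num),
    hlog.eventually_ge_atTop (2 ^ Kw * (1 + C5 * 2) * (512 * C1))] with X h1 h2 h3 h4 h5
  intro Y a P0 hXY hYX ha haX haP hGG b hb
  have hX0 : 0 < X := by linarith
  have hX1 : 1 ≤ X := by linarith
  have hY0 : 0 < Y := by linarith
  have hL1 : 1 ≤ Real.log X := by
    rw [Real.le_log_iff_exp_le hX0]
    have := Real.exp_one_lt_d9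
    linarith
  have hWle := Wz_le Cw X hL1
  have hWsq := Wz_sqf Cw X
  have hWpos := Wz_pos Cw X
  set W := Wz Cw X with hW
  set L := Real.log X with hL
  have hL0 : 0 < L := by linarith
  have hWX : (W : ℝ) ≤ X ^ (1 / 500 : ℝ) := by
    rw [one_mul] at h4
    exact hWle.trans h4
  -- parameters
  set R := ⌊X ^ (1 / 100 : ℝ)⌋₊ with hR
  set D := ⌊L ^ (2 * kk)⌋₊ with hD
  set M : ℝ := 256 * C1 * Y / L ^ N with hM
  set F : ℕ := ⌊Y ^ (1 / 50 : ℝ)⌋₊ with hF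
  have hM0 : 0 < M := by positivity
  have hRle : (R : ℝ) ≤ X ^ (1 / 100 : ℝ) := Nat.floor_le (by positivity)
  have hFle : W * R * a ^ 2 ≤ F := by
    apply Nat.le_floor
    push_cast
    calc (W : ℝ) * R * a ^ 2 ≤ X ^ (1 / 500 : ℝ) * X ^ (1 / 100 : ℝ) * (X ^ (1 / 1000 : ℝ)) ^ 2 := by
          gcongr
      _ = X ^ (1 / 500 + 1 / 100 + 2 / 1000 : ℝ) := by
          rw [← Real.rpow_natCast, ← Real.rpow_mul hX0.le, Real.rpow_add hX0, Real.rpow_add hX0]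
          norm_num
      _ ≤ X ^ (1 / 50 : ℝ) := Real.rpow_le_rpow_of_exponent_le hX1 (by norm_num)
      _ ≤ Y ^ (1 / 50 : ℝ) := Real.rpow_le_rpow hX0.le hXY (by norm_num)
  have hall : ∑ f ∈ Icc 2 F, TT Y f ≤ M * L ^ kk := by
    have h7 : ∑ f ∈ Icc 2 F, TT Y f ≤ C0 * Y * (Real.log Y) ^ 8 := hls Y (h2.trans hXY)
    refine h7.trans ?_
    have e1 : M * L ^ kk = C1 * Y * (2 * L) ^ 8 := by
      have hLk : L ^ kk = L ^ N * L ^ 8 := by rw [hkk, pow_add]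
      rw [hM, hLk]
      have hLN0 : L ^ N ≠ 0 := by positivity
      field_simp
      ring
    rw [e1]
    have h8 : C0 ≤ C1 := le_max_left _ _
    have h9 : Real.log Y ≤ 2 * L := by
      have := Real.log_le_log hY0 hYX
      rw [Real.log_pow] at this
      exact_mod_cast this
    have h10 : 0 ≤ Real.log Y := Real.log_nonneg (hX1.trans hXY)
    calc C0 * Y * (Real.log Y) ^ 8 ≤ C1 * Y * (Real.log Y) ^ 8 := by gcongr
      _ ≤ C1 * Y * (2 * L) ^ 8 := by gcongr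
  have hGM : GGn ⌊L ^ (2 * Cw + 2 * kk)⌋₊ Y a ≤ M := by
    refine hGG.trans ?_
    rw [hM]
    have : Y ≤ 256 * C1 * Y := by nlinarith
    gcongr
  have hU : W * D ≤ ⌊L ^ (2 * Cw + 2 * kk)⌋₊ := by
    apply Nat.le_floor
    push_cast
    calc (W : ℝ) * D ≤ L ^ (2 * Cw) * L ^ (2 * kk) := by
          have : (D : ℝ) ≤ L ^ (2 * kk) := Nat.floor_le (by positivity)
          gcongr
      _ = _ := by rw [← pow_add]
  have hpb := pairs_boundn A Y C5 M L hC5 hwt _ a P0 W R D kk F ha haP hWsq hL1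
    (fun b hb => by
      have : L ^ (2 * kk) < b := (Nat.floor_lt (by positivity)).mp hb
      exact this.le) hFle hall hGM hU
  have hRX : (R:ℝ) ≤ X := by
    refine hRle.trans ?_
    calc X ^ (1 / 100 : ℝ) ≤ X ^ (1:ℝ) := Real.rpow_le_rpow_of_exponent_le hX1 (by norm_num)
      _ = X := Real.rpow_one X
  have hsumwt : ∑ e ∈ Icc 1 R, LSBV.wt A e ≤ 2 ^ Kw * L ^ Kw := by
    refine (sum_wt A R).trans ?_
    rw [← hKw, ← mul_pow]
    have h7 := log_natCast_le R X hX1 hRX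
    have h8 := Real.log_natCast_nonneg R
    apply pow_le_pow_left₀ (by linarith)
    linarith
  have hUU : 1 ≤ ⌊L ^ (2 * Cw + 2 * kk)⌋₊ := by
    apply Nat.le_floor
    rw [Nat.cast_one]
    exact one_le_pow₀ hL1
  have hT1 : TA Y a 1 ≤ M := by
    refine le_trans ?_ hGM
    have h7 := TA_smalln ⌊L ^ (2 * Cw + 2 * kk)⌋₊ Y a {1} (by
      intro m hm
      rw [mem_singleton] at hm
      subst hm
      exact ⟨le_rfl, hUU, squarefree_one, Nat.coprime_one_left _⟩)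
    rwa [sum_singleton] at h7
  have h3' := h1 Y a P0 W hXY hYX ha haX hWpos hWX
  have hfin := main_bound A Y M (2 ^ Kw * L ^ Kw) (C5 * 2) _
    (hX1.trans hXY) a P0 W R ha haP hWsq hsumwt (by positivity) hT1 hpb h3' b hb
  refine hfin.trans ?_
  have hφ : (0 : ℝ) < (a * W).totient := by
    exact_mod_cast Nat.totient_pos.2 (Nat.mul_pos ha hWpos)
  have hlast : (1 / ((a * W).totient : ℝ)) * (2 ^ Kw * L ^ Kw * ((1 + C5 * 2) * M)) ≤
      (1 / 2) * (Y / (((a * W).totient : ℝ) * L ^ A)) := by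
    have e1 : (1 / ((a * W).totient : ℝ)) * (2 ^ Kw * L ^ Kw * ((1 + C5 * 2) * M)) =
        (1 / 2) * ((2 ^ Kw * (1 + C5 * 2) * (512 * C1)) / L ^ 2) *
          (Y / (((a * W).totient : ℝ) * L ^ A)) := by
      have e2 : L ^ N = L ^ Kw * L ^ A * L ^ 2 := by rw [hN, pow_add, pow_add]
      rw [hM, e2]
      have e3 : L ^ Kw ≠ 0 := by positivity
      have e4 : L ^ A ≠ 0 := by positivity
      field_simp
      ring
    rw [e1]
    calc (1 / 2) * ((2 ^ Kw * (1 + C5 * 2) * (512 * C1)) / L ^ 2) *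
          (Y / (((a * W).totient : ℝ) * L ^ A)) ≤ (1 / 2) * 1 * (Y / (((a * W).totient : ℝ) * L ^ A)) := by
          gcongr
          rw [div_le_one (by positivity)]
          calc 2 ^ Kw * (1 + C5 * 2) * (512 * C1) ≤ L := h5
            _ ≤ L ^ 2 := by nlinarith
      _ = _ := by ring
  have : Y / (((a * W).totient : ℝ) * L ^ A) = (1 / 2) * (Y / (((a * W).totient : ℝ) * L ^ A)) +
      (1 / 2) * (Y / (((a * W).totient : ℝ) * L ^ A)) := by ring
  rw [this]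
  linarith

end Pool.Agent.H262R2.UP
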