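import Mathlib
import Pool.Agent.H262R2.UM.S2
import Pool.Agent.H262R2.UP.Bv

open Finset Filter
open scoped ContDiff

/-! The sieve with a different coprimality set for each form: asymptotics and the first sum. -/

namespace Pool.Agent.H262R2.UP

open Pool.Agent.H378R2 Pool.Agent.H262R2.UM

theorem zz_tendsto (Cw : ℕ) (hCw : 1 ≤ Cw) : Tendsto (zz Cw) atTop atTop := by
  unfold zz
  apply tendsto_nat_floor_atTop.comp
  apply Tendsto.const_mul_atTop (by exact_mod_cast hCw)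
  exact Real.tendsto_log_atTop.comp Real.tendsto_log_atTop

/-- the conditions on the coprimality sets -/
structure GoodEf (X Cd : ℝ) (Cw : ℕ) {K : ℕ} (Em : Finset ℕ) (E : Fin K → Finset ℕ) : Prop where
  pr : ∀ p ∈ Em, p.Prime
  cd : (#(Em.filter (fun p => ⌊(2 * Real.log X) ^ 3⌋₊ < p)) : ℝ) ≤ Cd * Real.log X
  sub : ∀ j, E j ⊆ Em
  sm : ∀ j, ∀ p : ℕ, p.Prime → p ≤ zz Cw X → p ∈ E j

theorem asympF (J : ℕ) (F G : Fin J → ℝ → ℝ)
    (hF : ∀ j, ContDiff ℝ ∞ (F j)) (hG : ∀ j, ContDiff ℝ ∞ (G j))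
    (hFc : ∀ j, HasCompactSupport (F j)) (hGc : ∀ j, HasCompactSupport (G j))
    (hF0 : ∀ j x, 1 / 2 < x → F j x = 0) (hG0 : ∀ j x, 1 / 2 < x → G j x = 0)
    (Cd : ℝ) (hCd : 0 ≤ Cd) (Cw : ℕ) (hCw : 1 ≤ Cw) (ε : ℝ) (hε : 0 < ε) :
    ∀ᶠ X : ℝ in atTop, ∀ (Em : Finset ℕ) (E : Fin J → Finset ℕ) (w : ℕ → Fin J → ℝ),
      GoodEf X Cd Cw Em E →
      (∀ j, ∀ p : ℕ, p.Prime → |w p j - 1 / p| ≤ 2 / (p : ℝ) ^ 2) →
      |(∏ j, (LL X * BE (E j))) * sieveSum J F G (LL X) E w (RR X) - ∏ j, DD (F j) (G j)| ≤ ε := by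
  have h5 : SieveAsymp := sieve_asymp
  obtain ⟨δ, hδ, h⟩ := h5 J F G hF hG hFc hGc ε hε
  obtain ⟨c, hc, hset⟩ := setfacts2
  have e1 := LL_tendsto.eventually_ge_atTop (1 / δ)
  have e2 := LL_tendsto.eventually_ge_atTop 2
  have e3 := (zz_tendsto Cw hCw).eventually_ge_atTop ⌈1 / δ⌉₊
  filter_upwards [e1, e2, e3, hset Cd hCd] with X h1 h2 h3 h4
  intro Em E w hGE hw
  have hEp : ∀ j, ∀ p ∈ E j, p.Prime := fun j p hp => hGE.pr p (hGE.sub j hp)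
  have hf : ∀ j, _ := fun j => h4 (E j) (hEp j) (by
    refine le_trans ?_ hGE.cd
    exact_mod_cast card_le_card (filter_subset_filter _ (hGE.sub j)))
  apply h (LL X) E w (RR X) h1
  · intro j x hx
    have h6 : 1 / 2 < x := by
      refine lt_of_le_of_lt ?_ hx
      rw [le_div_iff₀ (by linarith)]
      have := RR_ge (LL X) h2
      unfold RR
      linarith
    exact ⟨hF0 j x h6, hG0 j x h6⟩
  · intro j p hp
    exact hEp j p hp
  · intro j p hp hpl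
    apply hGE.sm j p hp
    have : p ≤ ⌈1 / δ⌉₊ := by
      have := hpl.trans (Nat.le_ceil (1 / δ))
      exact_mod_cast this
    exact this.trans h3
  · intro j; exact (hf j).1
  · intro j; exact (hf j).2.1
  · intro j p hp _
    exact hw j p hp

/-- the sieved primes see pairwise independent forms -/
structure GoodFf {K : ℕ} (E : Fin K → Finset ℕ) (a b : Fin K → ℕ) : Prop where
  ha : ∀ i j, ∀ p : ℕ, p.Prime → p ∉ E j → ¬ p ∣ a i
  hr : ∀ i j, i ≠ j → ∀ p : ℕ, p.Prime → p ∉ E i → p ∉ E j → ¬ (p : ℤ) ∣ (a i : ℤ) * b j - a j * b i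
  h0 : ∀ i j, i ≠ j → (a i : ℤ) * b j - a j * b i ≠ 0

/-- square root of the weight -/
noncomputable def sqwf {K B : ℕ} (E : Fin K → Finset ℕ) (X : ℝ) (f : Fin B → ℝ → ℝ) (A : Finset (Fin K → Fin B))
    (x : Fin K → ℤ) : ℝ := ∑ a ∈ A, ∏ j, VVm (E j) (RR X) (LL X) (f (a j)) (x j)

theorem sqwf_sq {K B : ℕ} (E : Fin K → Finset ℕ) (X : ℝ) (f : Fin B → ℝ → ℝ) (A : Finset (Fin K → Fin B))
    (x : Fin K → ℤ) : sqwf E X f A x ^ 2 =
      ∑ a ∈ A, ∑ b ∈ A, ∏ j, (VVm (E j) (RR X) (LL X) (f (a j)) (x j) *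
        VVm (E j) (RR X) (LL X) (f (b j)) (x j)) := by
  unfold sqwf
  rw [sq, Finset.sum_mul_sum]
  refine Finset.sum_congr rfl fun a _ => Finset.sum_congr rfl fun b _ => ?_
  rw [Finset.prod_mul_distrib]

theorem S1f {K B : ℕ} (f : Fin B → ℝ → ℝ) (c : Fin B → ℝ) (A : Finset (Fin K → Fin B))
    (hsm : ∀ l, ContDiff ℝ ∞ (f l)) (hcs : ∀ l, HasCompactSupport (f l)) (hf0 : ∀ l x, c l < x → f l x = 0)
    (hc : ∀ l, 0 ≤ c l ∧ c l ≤ 1 / 2) (hA : ∀ a ∈ A, ∑ j, c (a j) ≤ 1) (hf1 : ∀ l x, |f l x| ≤ 1)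
    (Cd : ℝ) (hCd : 0 ≤ Cd) (Cw : ℕ) (hCw : 1 ≤ Cw) (ε1 : ℝ) (hε1 : 0 < ε1) :
    ∀ᶠ X : ℝ in atTop, ∀ (Em : Finset ℕ) (E : Fin K → Finset ℕ) (W a0 N : ℕ) (a b : Fin K → ℕ),
      GoodEf X Cd Cw Em E → GoodFf E a b →
      0 < W → (∀ j, ∀ p : ℕ, p.Prime → p ∉ E j → ¬ p ∣ W) →
      ∑ n ∈ Icc 1 N, cl W a0 n * sqwf E X f A (fun j => (a j : ℤ) * n + b j) ^ 2 ≤
        ((N : ℝ) * (1 / (W : ℝ))) * (1 / ∏ j, (LL X * BE (E j))) * (II f A + ε1) +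
          (A.card : ℝ) ^ 2 * Real.exp (2 * LL X) := by
  classical
  have hev : ∀ᶠ X : ℝ in atTop, ∀ a ∈ A, ∀ b ∈ A, ∀ (Em : Finset ℕ) (E : Fin K → Finset ℕ) (w : ℕ → Fin K → ℝ),
      GoodEf X Cd Cw Em E →
      (∀ j, ∀ p : ℕ, p.Prime → |w p j - 1 / p| ≤ 2 / (p : ℝ) ^ 2) →
      |(∏ j, (LL X * BE (E j))) * sieveSum K (fun j => f (a j)) (fun j => f (b j)) (LL X) E w (RR X) -
        ∏ j, DD (f (a j)) (f (b j))| ≤ ε1 / ((A.card : ℝ) ^ 2 + 1) := by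
    rw [Filter.eventually_all_finset]
    intro a _
    rw [Filter.eventually_all_finset]
    intro b _
    exact asympF K (fun j => f (a j)) (fun j => f (b j)) (fun j => hsm _) (fun j => hsm _)
      (fun j => hcs _) (fun j => hcs _) (fun j x hx => hf0 _ x ((hc _).2.trans_lt hx))
      (fun j x hx => hf0 _ x ((hc _).2.trans_lt hx)) Cd hCd Cw hCw _ (by positivity)
  filter_upwards [hev, LL_tendsto.eventually_ge_atTop 1] with X h1 h6
  intro Em E W a0 N ca cb hGE hGF hWpos hEW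
  have hWr : (0 : ℝ) < W := by exact_mod_cast hWpos
  have hBE : ∀ j, 0 < BE (E j) := fun j => BE_pos fun p hp => hGE.pr p (hGE.sub j hp)
  have hLB : 0 < ∏ j, (LL X * BE (E j)) := prod_pos fun j _ => mul_pos (by linarith) (hBE j)
  have hMnn : (0 : ℝ) ≤ N := Nat.cast_nonneg _
  have hone : ∀ a ∈ A, ∀ b ∈ A, ∑ n ∈ Icc 1 N, cl W a0 n *
      ∏ j, (VVm (E j) (RR X) (LL X) (f (a j)) ((ca j : ℤ) * n + cb j) *
        VVm (E j) (RR X) (LL X) (f (b j)) ((ca j : ℤ) * n + cb j)) ≤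
      ((N : ℝ) * (1 / (W : ℝ))) * (1 / ∏ j, (LL X * BE (E j))) *
        (∏ j, DD (f (a j)) (f (b j)) + ε1 / ((A.card : ℝ) ^ 2 + 1)) + Real.exp (2 * LL X) := by
    intro a ha b hb
    have hsum : ∑ j, c (a j) + ∑ j, c (b j) ≤ 2 := by
      have := hA a ha
      have := hA b hb
      linarith
    have k1 := sum1c N W a0 hWpos (fun j => f (a j)) (fun j => f (b j)) (LL X) 1 (by linarith) zero_le_one
      (fun j => c (a j)) (fun j => c (b j)) (fun j x => hf1 _ x) (fun j x => hf1 _ x)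
      (fun j x hx => hf0 _ x hx) (fun j x hx => hf0 _ x hx) E (RR X) ca
      (fun j => (cb j : ℤ)) hEW (fun j => hGF.ha j j)
      (by
        intro i j hij p hp hpE hpE' n hh
        apply hGF.hr i j hij p hp hpE hpE'
        have h7 := dvd_sub (hh.2.mul_left (ca i : ℤ)) (hh.1.mul_left (ca j : ℤ))
        have h8 : (ca i : ℤ) * (ca j * n + cb j) - ca j * (ca i * n + cb i) = ca i * cb j - ca j * cb i := by
          ring
        rwa [h8] at h7)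
    have k2 := h1 a ha b hb Em E (fun p _ => 1 / (p : ℝ)) hGE (fun _ p _ => w_one p)
    have k4 := (abs_le.1 k1).2
    have k5 := (abs_le.1 k2).2
    set SS := sieveSum K (fun j => f (a j)) (fun j => f (b j)) (LL X) E (fun p _ => 1 / (p : ℝ)) (RR X)
    have k6 : SS ≤ (1 / ∏ j, (LL X * BE (E j))) * (∏ j, DD (f (a j)) (f (b j)) + ε1 / ((A.card : ℝ) ^ 2 + 1)) := by
      rw [one_div, ← div_eq_inv_mul, le_div_iff₀ hLB]
      linarith
    have k7 : (N : ℝ) * (1 / (W : ℝ)) * SS ≤ ((N : ℝ) * (1 / (W : ℝ))) * ((1 / ∏ j, (LL X * BE (E j))) *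
        (∏ j, DD (f (a j)) (f (b j)) + ε1 / ((A.card : ℝ) ^ 2 + 1))) :=
      mul_le_mul_of_nonneg_left k6 (by positivity)
    have k8 : (1 : ℝ) ^ (2 * K) * Real.exp (LL X * (∑ j, c (a j) + ∑ j, c (b j))) ≤ Real.exp (2 * LL X) := by
      rw [one_pow, one_mul]
      apply Real.exp_le_exp.2
      nlinarith
    unfold cl
    linarith
  simp_rw [sqwf_sq, Finset.mul_sum]
  rw [Finset.sum_comm]
  have hswap : ∀ a ∈ A, ∑ n ∈ Icc 1 N, ∑ b ∈ A, cl W a0 n *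
      ∏ j, (VVm (E j) (RR X) (LL X) (f (a j)) ((ca j : ℤ) * n + cb j) *
        VVm (E j) (RR X) (LL X) (f (b j)) ((ca j : ℤ) * n + cb j)) ≤
      ∑ b ∈ A, (((N : ℝ) * (1 / (W : ℝ))) * (1 / ∏ j, (LL X * BE (E j))) *
        (∏ j, DD (f (a j)) (f (b j)) + ε1 / ((A.card : ℝ) ^ 2 + 1)) + Real.exp (2 * LL X)) := by
    intro a ha
    rw [Finset.sum_comm]
    exact Finset.sum_le_sum fun b hb => hone a ha b hb
  refine (Finset.sum_le_sum hswap).trans ?_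
  simp_rw [Finset.sum_add_distrib, ← Finset.mul_sum, Finset.sum_add_distrib, Finset.sum_const, nsmul_eq_mul]
  have hfin : ((A.card : ℝ) * ((A.card : ℝ) * (ε1 / ((A.card : ℝ) ^ 2 + 1)))) ≤ ε1 := by
    have : (A.card : ℝ) * ((A.card : ℝ) * (ε1 / ((A.card : ℝ) ^ 2 + 1))) =
        ((A.card : ℝ) ^ 2 / ((A.card : ℝ) ^ 2 + 1)) * ε1 := by ring
    rw [this]
    have h7 : (A.card : ℝ) ^ 2 / ((A.card : ℝ) ^ 2 + 1) ≤ 1 := by
      rw [div_le_one (by positivity)]; linarith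
    nlinarith
  have hcoef : 0 ≤ ((N : ℝ) * (1 / (W : ℝ))) * (1 / ∏ j, (LL X * BE (E j))) := by positivity
  have : ((N : ℝ) * (1 / (W : ℝ))) * (1 / ∏ j, (LL X * BE (E j))) *
      (∑ a ∈ A, ∑ b ∈ A, ∏ j, DD (f (a j)) (f (b j)) +
        (A.card : ℝ) * ((A.card : ℝ) * (ε1 / ((A.card : ℝ) ^ 2 + 1)))) ≤
      ((N : ℝ) * (1 / (W : ℝ))) * (1 / ∏ j, (LL X * BE (E j))) * (II f A + ε1) := by
    apply mul_le_mul_of_nonneg_left _ hcoef
    unfold II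
    linarith
  calc _ = ((N : ℝ) * (1 / (W : ℝ))) * (1 / ∏ j, (LL X * BE (E j))) *
      (∑ a ∈ A, ∑ b ∈ A, ∏ j, DD (f (a j)) (f (b j)) +
        (A.card : ℝ) * ((A.card : ℝ) * (ε1 / ((A.card : ℝ) ^ 2 + 1)))) +
          (A.card : ℝ) ^ 2 * Real.exp (2 * LL X) := by ring
    _ ≤ _ := by linarith

end Pool.Agent.H262R2.UP
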