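import Mathlib
import Pool.Agent.H262R2.UP.Sv1
import Pool.Agent.H262R2.UM.S2b

open Finset Filter
open scoped ContDiff

/-! The second sums of the sieve, with a different coprimality set for each form. -/

namespace Pool.Agent.H262R2.UP

open Pool.Agent.H378R2 Pool.Agent.H262R2.UM

/-- the product of the remaining forms, as a function of the prime `a i * n + b i` -/
noncomputable def PRf {K0 B : ℕ} (E : Fin K0 → Finset ℕ) (X : ℝ) (f : Fin B → ℝ → ℝ) (u v : Fin (K0 + 1) → Fin B)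
    (i : Fin (K0 + 1)) (a b : Fin (K0 + 1) → ℕ) (n : ℕ) : ℝ :=
  ∏ j : Fin K0, (VVm (E j) (RR X) (LL X) (f (u (i.succAbove j)))
      ((a (i.succAbove j) : ℤ) * n + ((a i : ℤ) * b (i.succAbove j) - a (i.succAbove j) * b i)) *
    VVm (E j) (RR X) (LL X) (f (v (i.succAbove j)))
      ((a (i.succAbove j) : ℤ) * n + ((a i : ℤ) * b (i.succAbove j) - a (i.succAbove j) * b i)))

/-- the weight as a function of the prime -/
noncomputable def Gf {K0 B : ℕ} (E : Fin K0 → Finset ℕ) (X : ℝ) (f : Fin B → ℝ → ℝ)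
    (A : Finset (Fin (K0 + 1) → Fin B))
    (i : Fin (K0 + 1)) (a b : Fin (K0 + 1) → ℕ) (n : ℕ) : ℝ :=
  ∑ u ∈ A, ∑ v ∈ A, f (u i) 0 * f (v i) 0 * PRf E X f u v i a b n

theorem Gf_eq {K0 B : ℕ} (E : Fin K0 → Finset ℕ) (X : ℝ) (f : Fin B → ℝ → ℝ) (A : Finset (Fin (K0 + 1) → Fin B))
    (i : Fin (K0 + 1)) (a b : Fin (K0 + 1) → ℕ) (n : ℕ) : Gf E X f A i a b n =
      (∑ u ∈ A, f (u i) 0 * ∏ j : Fin K0, VVm (E j) (RR X) (LL X) (f (u (i.succAbove j)))
      ((a (i.succAbove j) : ℤ) * n + ((a i : ℤ) * b (i.succAbove j) - a (i.succAbove j) * b i))) ^ 2 := by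
  unfold Gf PRf
  rw [sq, Finset.sum_mul_sum]
  refine Finset.sum_congr rfl fun u _ => Finset.sum_congr rfl fun v _ => ?_
  rw [Finset.prod_mul_distrib]
  ring

theorem Gf_nonneg {K0 B : ℕ} (E : Fin K0 → Finset ℕ) (X : ℝ) (f : Fin B → ℝ → ℝ)
    (A : Finset (Fin (K0 + 1) → Fin B))
    (i : Fin (K0 + 1)) (a b : Fin (K0 + 1) → ℕ) (n : ℕ) : 0 ≤ Gf E X f A i a b n := by
  rw [Gf_eq]
  positivity

/-- enlarging the coprimality set by primes that do not divide the argument -/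
theorem VV_ext {E E' : Finset ℕ} (hsub : E ⊆ E') (R : ℕ) (L : ℝ) (F : ℝ → ℝ) (x : ℤ)
    (h : ∀ p ∈ E', p ∉ E → p.Prime → p ≤ R → ¬ (p : ℤ) ∣ x) : VVm E R L F x = VVm E' R L F x := by
  unfold VVm
  symm
  apply Finset.sum_subset
  · intro d hd
    rw [mem_adm] at hd ⊢
    exact ⟨hd.1, hd.2.1, fun p hp => hd.2.2 p (hsub hp)⟩
  · intro d hd hd'
    rw [mem_adm] at hd hd'
    have : ∃ p ∈ E', p.Prime ∧ p ∣ d := by
      by_contra hcon
      push Not at hcon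
      exact hd' ⟨hd.1, hd.2.1, fun p hp hpp => hcon p hp hpp⟩
    obtain ⟨p, hp, hpp, hpd⟩ := this
    have hpE : p ∉ E := fun hpE => hd.2.2 p hpE hpp hpd
    have hpR : p ≤ R := (Nat.le_of_dvd (by omega) hpd).trans hd.1.2
    rw [if_neg]
    intro hdx
    exact h p hp hpE hpp hpR ((Int.natCast_dvd_natCast.2 hpd).trans hdx)

/-- the coprimality sets seen from the form `i` -/
def Ex {K0 : ℕ} (E : Fin (K0 + 1) → Finset ℕ) (a b : Fin (K0 + 1) → ℕ) (i : Fin (K0 + 1)) (j : Fin K0) : Finset ℕ :=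
  E (i.succAbove j) ∪ ((a i : ℤ) * b (i.succAbove j) - a (i.succAbove j) * b i).natAbs.primeFactors

theorem sqwf_at_prime {K0 B : ℕ} (E : Fin (K0 + 1) → Finset ℕ) (X : ℝ) (f : Fin B → ℝ → ℝ)
    (A : Finset (Fin (K0 + 1) → Fin B))
    (i : Fin (K0 + 1)) (a b : Fin (K0 + 1) → ℕ) (hE : ∀ j, ∀ p : ℕ, p.Prime → p ∉ E j → ¬ p ∣ a i)
    (hEa : ∀ j, ∀ p : ℕ, p.Prime → p ∉ E j → ¬ p ∣ a j)
    (n : ℕ) (hR : 1 ≤ RR X) (hp : (a i * n + b i).Prime) (hRp : RR X < a i * n + b i) :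
    sqwf E X f A (fun j => (a j : ℤ) * n + b j) ^ 2 = Gf (Ex E a b i) X f A i a b (a i * n + b i) := by
  classical
  rw [Gf_eq]
  congr 1
  unfold sqwf
  refine Finset.sum_congr rfl fun u _ => ?_
  rw [Fin.prod_univ_succAbove _ i]
  have h1 : ∀ l, VVm (E i) (RR X) (LL X) (f l) ((a i : ℤ) * n + b i) = f l 0 := by
    intro l
    have := VV_prime (E i) (RR X) hR (LL X) (f l) (a i * n + b i) hp hRp
    push_cast at this
    exact this
  rw [h1]
  congr 1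
  refine Finset.prod_congr rfl fun j _ => ?_
  have h2 : (a (i.succAbove j) : ℤ) * ((a i * n + b i : ℕ) : ℤ) + ((a i : ℤ) * b (i.succAbove j) - a (i.succAbove j) * b i) =
      (a i : ℤ) * ((a (i.succAbove j) : ℤ) * n + b (i.succAbove j)) := by
    push_cast; ring
  have h9 : ∀ p : ℕ, p.Prime → p ∉ Ex E a b i j → ¬ p ∣ a i :=
    fun p hp hpE => hE (i.succAbove j) p hp (fun h => hpE (mem_union_left _ h))
  rw [h2, VV_mul h9]
  apply VV_ext subset_union_left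
  intro p hpE' hpE hpp hpR hdvd
  unfold Ex at hpE'
  rw [mem_union] at hpE'
  rcases hpE' with h | h
  · exact hpE h
  · have hpd : (p : ℤ) ∣ (a i : ℤ) * b (i.succAbove j) - a (i.succAbove j) * b i := by
      have := Nat.dvd_of_mem_primeFactors h
      exact Int.natCast_dvd.2 this
    have h3 : (p : ℤ) ∣ (a (i.succAbove j) : ℤ) * ((a i * n + b i : ℕ) : ℤ) := by
      have h4 : (p : ℤ) ∣ (a i : ℤ) * ((a (i.succAbove j) : ℤ) * n + b (i.succAbove j)) := hdvd.mul_left _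
      rw [← h2] at h4
      exact (Int.dvd_add_left hpd).1 h4
    rcases (Nat.prime_iff_prime_int.1 hpp).dvd_or_dvd h3 with h5 | h5
    · exact hEa _ p hpp hpE (Int.natCast_dvd_natCast.1 h5)
    · have h6 := (Nat.prime_dvd_prime_iff_eq hpp hp).1 (Int.natCast_dvd_natCast.1 h5)
      omega

/-- conditions on the coprimality sets seen from the form `i` -/
structure GoodHf {K0 : ℕ} (E : Fin K0 → Finset ℕ) (a b : Fin (K0 + 1) → ℕ) (i : Fin (K0 + 1)) : Prop where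
  hc : ∀ j, ∀ p : ℕ, p.Prime → p ∉ E j → ¬ p ∣ a (i.succAbove j)
  hci : ∀ j, ∀ p : ℕ, p.Prime → p ∉ E j → ¬ p ∣ a i
  hh : ∀ j, ∀ p : ℕ, p.Prime → p ∉ E j → ¬ (p : ℤ) ∣ (a i : ℤ) * b (i.succAbove j) - a (i.succAbove j) * b i
  hr : ∀ j k, j ≠ k → ∀ p : ℕ, p.Prime → p ∉ E j → p ∉ E k →
    ¬ (p : ℤ) ∣ (a (i.succAbove j) : ℤ) * b (i.succAbove k) - a (i.succAbove k) * b (i.succAbove j)

theorem GoodHf_Ex {K0 : ℕ} {E : Fin (K0 + 1) → Finset ℕ} {a b : Fin (K0 + 1) → ℕ} (h : GoodFf E a b)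
    (i : Fin (K0 + 1)) : GoodHf (Ex E a b i) a b i := by
  refine ⟨?_, ?_, ?_, ?_⟩
  · intro j p hp hpE
    exact h.ha _ _ p hp (fun hh => hpE (mem_union_left _ hh))
  · intro j p hp hpE
    exact h.ha i (i.succAbove j) p hp (fun hh => hpE (mem_union_left _ hh))
  · intro j p hp hpE hd
    apply hpE
    apply mem_union_right
    rw [Nat.mem_primeFactors]
    refine ⟨hp, Int.natCast_dvd.1 hd, ?_⟩
    rw [Int.natAbs_ne_zero]
    exact h.h0 _ _ (Fin.succAbove_ne i j).symm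
  · intro j k hjk p hp hpj hpk
    exact h.hr _ _ (fun hh => hjk (Fin.succAbove_right_injective hh)) p hp
      (fun hh => hpj (mem_union_left _ hh)) (fun hh => hpk (mem_union_left _ hh))

theorem S2_pair_f {K0 B : ℕ} (f : Fin B → ℝ → ℝ) (c : Fin B → ℝ)
    (hsm : ∀ l, ContDiff ℝ ∞ (f l)) (hcs : ∀ l, HasCompactSupport (f l)) (hf0 : ∀ l x, c l < x → f l x = 0)
    (hc : ∀ l, 0 ≤ c l ∧ c l ≤ 1 / 2) (hf1 : ∀ l x, |f l x| ≤ 1) (Cd : ℝ) (hCd : 0 ≤ Cd)
    (Cw : ℕ) (hCw : 1 ≤ Cw)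
    (ε1 : ℝ) (hε1 : 0 < ε1) (u v : Fin (K0 + 1) → Fin B) (i : Fin (K0 + 1))
    (hu : ∑ j, c (u j) ≤ 1) (hv : ∑ j, c (v j) ≤ 1) :
    ∀ᶠ X : ℝ in atTop, ∀ (Y : ℝ) (Em : Finset ℕ) (E : Fin K0 → Finset ℕ) (Q P r : ℕ) (a b : Fin (K0 + 1) → ℕ),
      1 ≤ Y → GoodEf X Cd Cw Em E →
      GoodHf E a b i → 0 < Q → (∀ j, ∀ p : ℕ, p.Prime → p ∉ E j → ¬ p ∣ Q) →
      (∀ j, ∀ p : ℕ, p.Prime → p ∉ E j → ¬ p ∣ P) →
      r.Coprime Q →
      ∀ Bc : ℕ → ℕ, (∀ q, 1 ≤ q → ∀ b' : ℕ, b'.Coprime (Q * q) →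
        |EPhi Y (Q * q) b'| ≤ |EPhi Y (Q * q) (Bc q)|) →
      |∑ n ∈ Icc 1 ⌊3 * Y⌋₊, (if n ≡ r [MOD Q] then Phi (n / Y) * ArithmeticFunction.vonMangoldt n else 0) *
          PRf E X f u v i a b n -
        (LPhi Y * (1 / (Q.totient : ℝ))) * (1 / ∏ j, (LL X * BE (E j))) *
          ∏ j : Fin K0, DD (f (u (i.succAbove j))) (f (v (i.succAbove j)))| ≤
      (LPhi Y * (1 / (Q.totient : ℝ))) * (1 / ∏ j, (LL X * BE (E j))) * ε1 + BVm K0 X Y Q P Bc := by
  classical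
  have hev := asympF K0 (fun j => f (u (i.succAbove j))) (fun j => f (v (i.succAbove j))) (fun j => hsm _) (fun j => hsm _)
      (fun j => hcs _) (fun j => hcs _) (fun j x hx => hf0 _ x ((hc _).2.trans_lt hx))
      (fun j x hx => hf0 _ x ((hc _).2.trans_lt hx)) Cd hCd Cw hCw ε1 hε1
  filter_upwards [hev, eventually_ge_atTop 4, LL_tendsto.eventually_ge_atTop 1] with X h1 h4 h6
  intro Y Em E Q P r a b hY hGE hGF hQ hEQ hEP hcop Bc hBc
  have hBE : ∀ j, 0 < BE (E j) := fun j => BE_pos fun p hp => hGE.pr p (hGE.sub j hp)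
  have hLB : 0 < ∏ j, (LL X * BE (E j)) := prod_pos fun j _ => mul_pos (by linarith) (hBE j)
  have hsum : ∑ j : Fin K0, c (u (i.succAbove j)) + ∑ j : Fin K0, c (v (i.succAbove j)) ≤ 2 := by
    have := sum_succAbove_le c (fun l => (hc l).1) u i
    have := sum_succAbove_le c (fun l => (hc l).1) v i
    linarith
  -- sieve
  have s2 := sum2c Y Q P r hQ hcop (fun j => f (u (i.succAbove j))) (fun j => f (v (i.succAbove j)))
    (LL X) 1 (by linarith) zero_le_one (fun j => c (u (i.succAbove j))) (fun j => c (v (i.succAbove j)))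
    (fun j x => hf1 _ x) (fun j x => hf1 _ x)
    (fun j x hx => hf0 _ x hx) (fun j x hx => hf0 _ x hx) E (RR X)
    (fun j => a (i.succAbove j))
    (fun j => (a i : ℤ) * b (i.succAbove j) - a (i.succAbove j) * b i)
    hEQ hEP hGF.hc hGF.hh
    (by
      intro j k hjk p hp hpE hpE' n hh
      have h7 := dvd_sub (hh.2.mul_left (a (i.succAbove j) : ℤ)) (hh.1.mul_left (a (i.succAbove k) : ℤ))
      have h8 : (a (i.succAbove j) : ℤ) * ((a (i.succAbove k) : ℤ) * n +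
          ((a i : ℤ) * b (i.succAbove k) - a (i.succAbove k) * b i)) -
          a (i.succAbove k) * ((a (i.succAbove j) : ℤ) * n +
          ((a i : ℤ) * b (i.succAbove j) - a (i.succAbove j) * b i)) =
          (a i : ℤ) * ((a (i.succAbove j) : ℤ) * b (i.succAbove k) - a (i.succAbove k) * b (i.succAbove j)) := by
        ring
      rw [h8] at h7
      rcases (Nat.prime_iff_prime_int.1 hp).dvd_or_dvd h7 with h9 | h9
      · exact hGF.hci j p hp hpE (Int.natCast_dvd_natCast.1 h9)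
      · exact hGF.hr _ _ hjk p hp hpE hpE' h9)
    Bc hBc
  have s3 : ∑ n ∈ Icc 1 ⌊3 * Y⌋₊, (if n ≡ r [MOD Q] then Phi (n / Y) * ArithmeticFunction.vonMangoldt n else 0) *
      PRf E X f u v i a b n =
      ∑ n ∈ Icc 1 ⌊3 * Y⌋₊, (if n ≡ r [MOD Q] then Phi (n / Y) * ArithmeticFunction.vonMangoldt n else 0) *
        ∏ j : Fin K0, (VVm (E j) (RR X) (LL X) (f (u (i.succAbove j)))
          ((a (i.succAbove j) : ℤ) * n + ((a i : ℤ) * b (i.succAbove j) - a (i.succAbove j) * b i)) *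
        VVm (E j) (RR X) (LL X) (f (v (i.succAbove j)))
          ((a (i.succAbove j) : ℤ) * n + ((a i : ℤ) * b (i.succAbove j) - a (i.succAbove j) * b i))) := rfl
  rw [← s3] at s2
  have s4 : (1 : ℝ) ^ (2 * K0) * ∑ q ∈ (Icc 1 ⌊Real.exp (LL X * (∑ j : Fin K0, c (u (i.succAbove j)) +
      ∑ j : Fin K0, c (v (i.succAbove j))))⌋₊).filter
      (fun q => Squarefree q ∧ q.Coprime P), (q.divisors.card : ℝ) ^ (2 * K0) * |EPhi Y (Q * q) (Bc q)| ≤
      BVm K0 X Y Q P Bc := by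
    rw [one_pow, one_mul]
    unfold BVm
    apply Finset.sum_le_sum_of_subset_of_nonneg
    · apply Finset.filter_subset_filter
      apply Finset.Icc_subset_Icc le_rfl
      apply Nat.floor_le_floor
      rw [← exp_two_LL X (by linarith)]
      apply Real.exp_le_exp.2
      nlinarith
    · intro q _ _
      positivity
  -- asymptotics
  have s5 := h1 Em E (fun p _ => 1 / ((p : ℝ) - 1)) hGE (fun _ p hp => w_two hp)
  set SS := sieveSum K0 (fun j => f (u (i.succAbove j))) (fun j => f (v (i.succAbove j))) (LL X) E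
    (fun p _ => 1 / ((p : ℝ) - 1)) (RR X)
  set D := ∏ j : Fin K0, DD (f (u (i.succAbove j))) (f (v (i.succAbove j))) with hD
  have hLP : 0 ≤ LPhi Y * (1 / (Q.totient : ℝ)) := by
    apply mul_nonneg
    · unfold LPhi
      exact Finset.sum_nonneg fun n _ => mul_nonneg (Phi_nonneg _) ArithmeticFunction.vonMangoldt_nonneg
    · positivity
  have s6 : |(LPhi Y * (1 / (Q.totient : ℝ))) * SS -
      (LPhi Y * (1 / (Q.totient : ℝ))) * (1 / ∏ j, (LL X * BE (E j))) * D| ≤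
      (LPhi Y * (1 / (Q.totient : ℝ))) * (1 / ∏ j, (LL X * BE (E j))) * ε1 := by
    have : (LPhi Y * (1 / (Q.totient : ℝ))) * SS -
      (LPhi Y * (1 / (Q.totient : ℝ))) * (1 / ∏ j, (LL X * BE (E j))) * D =
      (LPhi Y * (1 / (Q.totient : ℝ))) * (1 / ∏ j, (LL X * BE (E j))) * ((∏ j, (LL X * BE (E j))) * SS - D) := by
      have h0 : (∏ j, (LL X * BE (E j))) ≠ 0 := hLB.ne'
      generalize (∏ j, (LL X * BE (E j))) = Pr at h0
      generalize (LPhi Y * (1 / (Q.totient : ℝ))) = Mn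
      field_simp
    rw [this, abs_mul, abs_of_nonneg (by positivity)]
    exact mul_le_mul_of_nonneg_left s5 (by positivity)
  have s9 := abs_le.1 s2
  have s10 := abs_le.1 s6
  rw [abs_le]
  constructor <;> linarith [s9.1, s9.2, s10.1, s10.2, s4]

end Pool.Agent.H262R2.UP
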