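import Mathlib
import Pool.Agent.H262R2.UP.Sv3
import Pool.Agent.H262R2.UM.Core

open Finset Filter

/-! The coprimality sets. -/

namespace Pool.Agent.H262R2.UP

open Pool.Agent.H378R2 Pool.Agent.H262R2.UM

/-- primes up to `z` -/
def Pz (z : ℕ) : Finset ℕ := (range (z + 1)).filter Nat.Prime

theorem mem_Pz {z p : ℕ} : p ∈ Pz z ↔ p ≤ z ∧ p.Prime := by
  unfold Pz
  rw [mem_filter, mem_range, Nat.lt_succ_iff]

/-- primes dividing a leading coefficient -/
def Va {K : ℕ} (a : Fin K → ℕ) : Finset ℕ := univ.biUnion fun i => (a i).primeFactors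

theorem mem_Va {K : ℕ} {a : Fin K → ℕ} {p : ℕ} : p ∈ Va a ↔ ∃ i, p ∈ (a i).primeFactors := by
  unfold Va
  rw [mem_biUnion]
  simp

/-- primes dividing a resultant with an earlier form -/
def Vr {K : ℕ} (a b : Fin K → ℕ) (j : Fin K) : Finset ℕ :=
  ((univ : Finset (Fin K)).filter (fun i => i < j)).biUnion
    (fun i => ((a i : ℤ) * b j - a j * b i).natAbs.primeFactors)

theorem mem_Vr {K : ℕ} {a b : Fin K → ℕ} {j : Fin K} {p : ℕ} : p ∈ Vr a b j ↔
    ∃ i, i < j ∧ p ∈ ((a i : ℤ) * b j - a j * b i).natAbs.primeFactors := by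
  unfold Vr
  rw [mem_biUnion]
  simp

/-- the coprimality sets -/
def Es {K : ℕ} (z : ℕ) (a b : Fin K → ℕ) (j : Fin K) : Finset ℕ := (Pz z ∪ Va a) ∪ Vr a b j

/-- the master set -/
def Em {K : ℕ} (z : ℕ) (a b : Fin K → ℕ) : Finset ℕ := Pz z ∪ (Dsc a b).primeFactors

theorem Em_prime {K : ℕ} {z : ℕ} {a b : Fin K → ℕ} {p : ℕ} (hp : p ∈ Em z a b) : p.Prime := by
  unfold Em at hp
  rw [mem_union] at hp
  rcases hp with h | h
  · exact (mem_Pz.1 h).2
  · exact Nat.prime_of_mem_primeFactors h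

theorem Es_sub {K : ℕ} {z : ℕ} {a b : Fin K → ℕ} (hD : Dsc a b ≠ 0) (j : Fin K) : Es z a b j ⊆ Em z a b := by
  intro p hp
  unfold Es at hp
  unfold Em
  rw [mem_union, mem_union] at hp
  rw [mem_union]
  rcases hp with (h | h) | h
  · exact Or.inl h
  · right
    obtain ⟨i, hi⟩ := mem_Va.1 h
    exact Nat.primeFactors_mono (dvd_Dsc_a a b i) hD hi
  · right
    obtain ⟨i, hi, hp⟩ := mem_Vr.1 h
    exact Nat.primeFactors_mono (dvd_Dsc_r a b hi.ne) hD hp

theorem Ex_sub {K0 : ℕ} {z : ℕ} {a b : Fin (K0 + 1) → ℕ} (hD : Dsc a b ≠ 0) (i : Fin (K0 + 1)) (j : Fin K0) :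
    Ex (Es z a b) a b i j ⊆ Em z a b := by
  intro p hp
  unfold Ex at hp
  rw [mem_union] at hp
  rcases hp with h | h
  · exact Es_sub hD _ h
  · unfold Em
    rw [mem_union]
    right
    exact Nat.primeFactors_mono (dvd_Dsc_r a b (Fin.succAbove_ne i j).symm) hD h

theorem GoodEf_Es {K : ℕ} {X : ℝ} {Cd : ℝ} {Cw : ℕ} {a b : Fin K → ℕ} (hD : Dsc a b ≠ 0)
    (hcd : (#((Em (zz Cw X) a b).filter (fun p => ⌊(2 * Real.log X) ^ 3⌋₊ < p)) : ℝ) ≤ Cd * Real.log X) :
    GoodEf X Cd Cw (Em (zz Cw X) a b) (Es (zz Cw X) a b) := by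
  refine ⟨fun p hp => Em_prime hp, hcd, fun j => Es_sub hD j, ?_⟩
  intro j p hp hpz
  unfold Es
  rw [mem_union, mem_union]
  exact Or.inl (Or.inl (mem_Pz.2 ⟨hpz, hp⟩))

theorem GoodEf_Ex {K0 : ℕ} {X : ℝ} {Cd : ℝ} {Cw : ℕ} {a b : Fin (K0 + 1) → ℕ} (hD : Dsc a b ≠ 0)
    (hcd : (#((Em (zz Cw X) a b).filter (fun p => ⌊(2 * Real.log X) ^ 3⌋₊ < p)) : ℝ) ≤ Cd * Real.log X)
    (i : Fin (K0 + 1)) :
    GoodEf X Cd Cw (Em (zz Cw X) a b) (Ex (Es (zz Cw X) a b) a b i) := by
  refine ⟨fun p hp => Em_prime hp, hcd, fun j => Ex_sub hD i j, ?_⟩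
  intro j p hp hpz
  unfold Ex Es
  rw [mem_union, mem_union, mem_union]
  exact Or.inl (Or.inl (Or.inl (mem_Pz.2 ⟨hpz, hp⟩)))

theorem GoodFf_Es {K : ℕ} {z : ℕ} {a b : Fin K → ℕ} (hadm : Adm a b) (hpos : ∀ i, 0 < a i)
    (hinj : Function.Injective (fun i => (a i, b i))) : GoodFf (Es z a b) a b := by
  refine ⟨?_, ?_, ?_⟩
  · intro i j p hp hpE hd
    apply hpE
    unfold Es
    rw [mem_union, mem_union]
    left; right
    exact mem_Va.2 ⟨i, Nat.mem_primeFactors.2 ⟨hp, hd, (hpos i).ne'⟩⟩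
  · intro i j hij p hp hpi hpj hd
    have h0 := nonprop hadm hpos hinj hij
    have h0' := nonprop hadm hpos hinj (Ne.symm hij)
    rcases lt_or_gt_of_ne hij with h | h
    · apply hpj
      unfold Es
      rw [mem_union]
      right
      exact mem_Vr.2 ⟨i, h, Nat.mem_primeFactors.2 ⟨hp, Int.natCast_dvd.1 hd, Int.natAbs_ne_zero.2 h0⟩⟩
    · apply hpi
      unfold Es
      rw [mem_union]
      right
      refine mem_Vr.2 ⟨j, h, Nat.mem_primeFactors.2 ⟨hp, ?_, Int.natAbs_ne_zero.2 h0'⟩⟩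
      apply Int.natCast_dvd.1
      have h1 : (a j : ℤ) * b i - a i * b j = -((a i : ℤ) * b j - a j * b i) := by ring
      rw [h1]
      exact hd.neg_right
  · intro i j hij
    exact nonprop hadm hpos hinj hij

/-- the size of the master set -/
theorem Em_card (K Cw : ℕ) : ∀ᶠ X : ℝ in atTop, ∀ a b : Fin K → ℕ, Adm a b → (∀ i, 0 < a i ∧ b i ≤ a i) →
    Function.Injective (fun i => (a i, b i)) → (∀ i, (a i : ℝ) ≤ X ^ (1 / 1000 : ℝ)) →
    (#((Em (zz Cw X) a b).filter (fun p => ⌊(2 * Real.log X) ^ 3⌋₊ < p)) : ℝ) ≤ ((K : ℝ) + K ^ 2) * Real.log X := by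
  have hlog := Real.tendsto_log_atTop
  have h1 : ∀ᶠ L : ℝ in atTop, (Cw : ℝ) * Real.log L ≤ L := by
    have := Real.isLittleO_log_id_atTop.def (c := 1 / ((Cw : ℝ) + 1)) (by positivity)
    filter_upwards [this, eventually_ge_atTop (1 : ℝ)] with L h h1
    rw [Real.norm_of_nonneg (Real.log_nonneg h1), id, Real.norm_of_nonneg (by linarith), one_div,
      ← div_eq_inv_mul, le_div_iff₀ (by positivity)] at h
    have := Real.log_nonneg h1
    nlinarith
  filter_upwards [hlog.eventually h1, hlog.eventually_ge_atTop (1 : ℝ), eventually_ge_atTop (1 : ℝ)] with X h2 h3 h4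
  intro a b hadm hab hinj haX
  have hL3 : Real.log X ≤ (2 * Real.log X) ^ 3 := by
    have : 1 ≤ 2 * Real.log X := by linarith
    calc Real.log X ≤ 2 * Real.log X := by linarith
      _ ≤ (2 * Real.log X) ^ 3 := le_self_pow₀ this (by norm_num)
  have hz : zz Cw X ≤ ⌊(2 * Real.log X) ^ 3⌋₊ := by
    unfold zz
    apply Nat.floor_le_floor
    linarith
  have h8 : 3 ≤ ⌊(2 * Real.log X) ^ 3⌋₊ := by
    apply Nat.le_floor
    have : (2 : ℝ) ^ 3 ≤ (2 * Real.log X) ^ 3 := pow_le_pow_left₀ (by norm_num) (by linarith) 3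
    push_cast
    linarith
  have hsub : (Em (zz Cw X) a b).filter (fun p => ⌊(2 * Real.log X) ^ 3⌋₊ < p) ⊆
      (Dsc a b).primeFactors.filter (fun p => ⌊(2 * Real.log X) ^ 3⌋₊ < p) := by
    intro p hp
    rw [mem_filter] at hp ⊢
    refine ⟨?_, hp.2⟩
    have := hp.1
    unfold Em at this
    rw [mem_union] at this
    rcases this with h | h
    · exfalso
      have := (mem_Pz.1 h).1
      omega
    · exact h
  have h5 : ∑ p ∈ (Dsc a b).primeFactors, Real.log p ≤ ((K : ℝ) + K ^ 2) * Real.log X := by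
    apply Dsc_log hadm (fun i => (hab i).1) hinj X h4 _ (fun i => (hab i).2)
    intro i
    refine (haX i).trans ?_
    rw [Real.sqrt_eq_rpow]
    exact Real.rpow_le_rpow_of_exponent_le h4 (by norm_num)
  refine le_trans ?_ h5
  calc (#((Em (zz Cw X) a b).filter (fun p => ⌊(2 * Real.log X) ^ 3⌋₊ < p)) : ℝ) ≤
      #((Dsc a b).primeFactors.filter (fun p => ⌊(2 * Real.log X) ^ 3⌋₊ < p)) := by
        exact_mod_cast card_le_card hsub
    _ = ∑ p ∈ (Dsc a b).primeFactors.filter (fun p => ⌊(2 * Real.log X) ^ 3⌋₊ < p), (1 : ℝ) := by simp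
    _ ≤ ∑ p ∈ (Dsc a b).primeFactors.filter (fun p => ⌊(2 * Real.log X) ^ 3⌋₊ < p), Real.log p := by
        apply sum_le_sum
        intro p hp
        have hp3 : 3 < p := lt_of_le_of_lt h8 (mem_filter.1 hp).2
        have hpr : (3 : ℝ) < p := by exact_mod_cast hp3
        rw [Real.le_log_iff_exp_le (by linarith)]
        have := Real.exp_one_lt_d9
        linarith
    _ ≤ _ := by
        apply sum_le_sum_of_subset_of_nonneg (filter_subset _ _)
        intro p hp _
        apply Real.log_nonneg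
        have := (Nat.prime_of_mem_primeFactors hp).one_lt.le
        exact_mod_cast this

/-! ### Euler products -/

theorem BE_union {A B : Finset ℕ} : BE (A ∪ B) = BE A * BE (B \ A) := by
  unfold BE
  rw [← prod_union disjoint_sdiff, union_sdiff_self_eq_union]

theorem BE_sub {A B : Finset ℕ} (h : A ⊆ B) : BE B = BE A * BE (B \ A) := by
  rw [← BE_union, union_eq_right.2 h]

theorem BE_union_ge {A B : Finset ℕ} (hA : ∀ p ∈ A, p.Prime) (hB : ∀ p ∈ B, p.Prime) :
    BE A * BE B ≤ BE (A ∪ B) := by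
  rw [BE_union]
  apply mul_le_mul_of_nonneg_left _ (BE_pos hA).le
  exact BE_anti sdiff_subset hB

theorem BE_biUnion_ge {ι : Type*} [DecidableEq ι] (s : Finset ι) (D : ι → Finset ℕ) (hD : ∀ i ∈ s, ∀ p ∈ D i, p.Prime) :
    ∏ i ∈ s, BE (D i) ≤ BE (s.biUnion D) := by
  induction s using Finset.induction_on with
  | empty => simp [BE]
  | insert i s hi ih =>
    rw [prod_insert hi, biUnion_insert]
    have h1 := ih (fun j hj => hD j (mem_insert_of_mem hj))
    have h2 : ∀ p ∈ D i, p.Prime := hD i (mem_insert_self i s)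
    have h3 : ∀ p ∈ s.biUnion D, p.Prime := by
      intro p hp
      obtain ⟨j, hj, hp⟩ := mem_biUnion.1 hp
      exact hD j (mem_insert_of_mem hj) p hp
    exact (mul_le_mul_of_nonneg_left h1 (BE_pos h2).le).trans (BE_union_ge h2 h3)

/-- the comparison of the two families of coprimality sets -/
theorem key_BE {K0 : ℕ} {z : ℕ} {a b : Fin (K0 + 1) → ℕ} (hadm : Adm a b) (hpos : ∀ i, 0 < a i)
    (hinj : Function.Injective (fun i => (a i, b i))) (i : Fin (K0 + 1)) :
    BE (Pz z ∪ Va a) * ∏ j, BE (Ex (Es z a b) a b i j) ≤ BE (Es z a b i) * ∏ j, BE (Es z a b (i.succAbove j)) := by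
  classical
  have hD := Dsc_ne hadm hpos hinj
  have hEp : ∀ j, ∀ p ∈ Es z a b j, p.Prime := fun j p hp => Em_prime (Es_sub hD j hp)
  have hXp : ∀ j, ∀ p ∈ Ex (Es z a b) a b i j, p.Prime := fun j p hp => Em_prime (Ex_sub hD i j hp)
  have hPV : ∀ p ∈ Pz z ∪ Va a, p.Prime := fun p hp => hEp i p (mem_union_left _ hp)
  have h1 : BE (Es z a b i) = BE (Pz z ∪ Va a) * BE (Es z a b i \ (Pz z ∪ Va a)) :=
    BE_sub subset_union_left
  have h2 : ∀ j, BE (Ex (Es z a b) a b i j) = BE (Es z a b (i.succAbove j)) *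
      BE (Ex (Es z a b) a b i j \ Es z a b (i.succAbove j)) :=
    fun j => BE_sub subset_union_left
  have h3 : ∏ j, BE (Ex (Es z a b) a b i j \ Es z a b (i.succAbove j)) ≤ BE (Es z a b i \ (Pz z ∪ Va a)) := by
    have h4 := BE_biUnion_ge univ (fun j => Ex (Es z a b) a b i j \ Es z a b (i.succAbove j))
      (fun j _ p hp => hXp j p (Finset.mem_sdiff.1 hp).1)
    refine h4.trans ?_
    apply BE_anti
    · intro p hp
      rw [Finset.mem_sdiff] at hp
      obtain ⟨hpE, hpn⟩ := hp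
      have hpp := hEp i p hpE
      have hpr : p ∈ Vr a b i := by
        unfold Es at hpE
        rw [mem_union] at hpE
        exact hpE.resolve_left hpn
      obtain ⟨j0, hj0, hpj0⟩ := mem_Vr.1 hpr
      -- minimal index of the class
      have hne : ((univ : Finset (Fin (K0 + 1))).filter
          (fun j => j < i ∧ (p : ℤ) ∣ (a j : ℤ) * b i - a i * b j)).Nonempty := by
        refine ⟨j0, ?_⟩
        rw [mem_filter]
        exact ⟨mem_univ _, hj0, Int.natCast_dvd.2 (Nat.dvd_of_mem_primeFactors hpj0)⟩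
      obtain ⟨j, hj, hmin⟩ := Finset.exists_min_image _ (fun j : Fin (K0 + 1) => j) hne
      rw [mem_filter] at hj
      obtain ⟨_, hji, hpd⟩ := hj
      have hne' : j ≠ i := hji.ne
      obtain ⟨j', hj'⟩ := Fin.exists_succAbove_eq hne'
      rw [mem_biUnion]
      refine ⟨j', mem_univ _, ?_⟩
      rw [Finset.mem_sdiff, hj']
      constructor
      · unfold Ex
        rw [mem_union, hj']
        right
        rw [Nat.mem_primeFactors]
        refine ⟨hpp, ?_, Int.natAbs_ne_zero.2 (nonprop hadm hpos hinj hne'.symm)⟩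
        apply Int.natCast_dvd.1
        have e1 : (a i : ℤ) * b j - a j * b i = -((a j : ℤ) * b i - a i * b j) := by ring
        rw [e1]
        exact hpd.neg_right
      · intro hpEj
        unfold Es at hpEj
        rw [mem_union] at hpEj
        have hpl := mem_Vr.1 (hpEj.resolve_left hpn)
        obtain ⟨l, hl, hpl⟩ := hpl
        have hpl' : (p : ℤ) ∣ (a l : ℤ) * b j - a j * b l := Int.natCast_dvd.2 (Nat.dvd_of_mem_primeFactors hpl)
        -- transitivity
        have e2 : (p : ℤ) ∣ (a j : ℤ) * ((a l : ℤ) * b i - a i * b l) := by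
          have e3 : (a j : ℤ) * ((a l : ℤ) * b i - a i * b l) =
              (a l : ℤ) * ((a j : ℤ) * b i - a i * b j) + a i * ((a l : ℤ) * b j - a j * b l) := by ring
          rw [e3]
          exact dvd_add (hpd.mul_left _) (hpl'.mul_left _)
        have hpaj : ¬ (p : ℤ) ∣ (a j : ℤ) := by
          intro h
          apply hpn
          rw [mem_union]
          right
          exact mem_Va.2 ⟨j, Nat.mem_primeFactors.2 ⟨hpp, Int.natCast_dvd_natCast.1 h, (hpos j).ne'⟩⟩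
        have e4 : (p : ℤ) ∣ (a l : ℤ) * b i - a i * b l :=
          ((Nat.prime_iff_prime_int.1 hpp).dvd_or_dvd e2).resolve_left hpaj
        have hlmem : l ∈ (univ : Finset (Fin (K0 + 1))).filter
          (fun j => j < i ∧ (p : ℤ) ∣ (a j : ℤ) * b i - a i * b j) := by
          rw [mem_filter]
          exact ⟨mem_univ _, hl.trans hji, e4⟩
        have := hmin l hlmem
        exact absurd hl (not_lt.2 this)
    · intro p hp
      obtain ⟨j, _, hp⟩ := mem_biUnion.1 hp
      exact hXp j p (Finset.mem_sdiff.1 hp).1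
  have h5 : ∏ j, BE (Ex (Es z a b) a b i j) = (∏ j, BE (Es z a b (i.succAbove j))) *
      ∏ j, BE (Ex (Es z a b) a b i j \ Es z a b (i.succAbove j)) := by
    rw [← prod_mul_distrib]
    exact prod_congr rfl fun j _ => h2 j
  rw [h1, h5]
  have h6 : 0 < BE (Pz z ∪ Va a) := BE_pos hPV
  have h7 : 0 < ∏ j, BE (Es z a b (i.succAbove j)) := prod_pos fun j _ => BE_pos (hEp _)
  generalize BE (Pz z ∪ Va a) = t1 at h6 ⊢
  generalize ∏ j, BE (Es z a b (i.succAbove j)) = t2 at h7 ⊢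
  generalize ∏ j, BE (Ex (Es z a b) a b i j \ Es z a b (i.succAbove j)) = t3 at h3 ⊢
  generalize BE (Es z a b i \ (Pz z ∪ Va a)) = t4 at h3 ⊢
  calc t1 * (t2 * t3) ≤ t1 * (t2 * t4) := by
        apply mul_le_mul_of_nonneg_left _ h6.le
        exact mul_le_mul_of_nonneg_left h3 h7.le
    _ = _ := by ring

theorem omega_le (n : ℕ) (hn : n ≠ 0) : 2 ^ #n.primeFactors ≤ #n.divisors := by
  rw [Nat.card_divisors hn]
  calc 2 ^ #n.primeFactors = ∏ _p ∈ n.primeFactors, 2 := by rw [prod_const]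
    _ ≤ _ := by
        apply prod_le_prod' 
        intro p hp
        have h1 : 1 ≤ n.factorization p := by
          have hpp := Nat.prime_of_mem_primeFactors hp
          exact (hpp.dvd_iff_one_le_factorization hn).1 (Nat.dvd_of_mem_primeFactors hp)
        omega

/-- few primes divide the leading coefficients -/
theorem BE_Va_ge {K : ℕ} (D Cw : ℕ) (hCw : 2 * K * D + 1 ≤ Cw) (X : ℝ) (hX : Real.exp 1 ≤ Real.log X) (a : Fin K → ℕ)
    (hpos : ∀ i, 0 < a i) (hτ : ∀ i, (#(a i).divisors : ℝ) ≤ (Real.log X) ^ D) :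
    Real.exp (-5) * BE (Pz (zz Cw X)) ≤ BE (Pz (zz Cw X) ∪ Va a) := by
  have hl : 1 ≤ Real.log (Real.log X) := by
    rw [Real.le_log_iff_exp_le (by linarith [Real.exp_pos 1])]
    exact hX
  have hL0 : 0 < Real.log X := by linarith [Real.exp_pos 1]
  set l := Real.log (Real.log X) with hldef
  have hVp : ∀ p ∈ Va a \ Pz (zz Cw X), p.Prime := by
    intro p hp
    obtain ⟨i, hi⟩ := mem_Va.1 (Finset.mem_sdiff.1 hp).1
    exact Nat.prime_of_mem_primeFactors hi
  have hω : ∀ i, (#(a i).primeFactors : ℝ) ≤ 2 * D * l := by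
    intro i
    have h1 := omega_le (a i) (hpos i).ne'
    have h2 : ((2 : ℝ) ^ #(a i).primeFactors) ≤ (Real.log X) ^ D := by
      refine le_trans ?_ (hτ i)
      exact_mod_cast h1
    have h3 := Real.log_le_log (by positivity) h2
    rw [Real.log_pow, Real.log_pow] at h3
    have h4 := Real.log_two_gt_d9
    have h5 : (0 : ℝ) ≤ #(a i).primeFactors := Nat.cast_nonneg _
    nlinarith
  have hcard : (#(Va a) : ℝ) ≤ 2 * K * D * l := by
    calc (#(Va a) : ℝ) ≤ ((∑ i, #(a i).primeFactors : ℕ) : ℝ) := by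
          exact_mod_cast card_biUnion_le
      _ = ∑ i, (#(a i).primeFactors : ℝ) := by push_cast; rfl
      _ ≤ ∑ _i : Fin K, 2 * D * l := sum_le_sum fun i _ => hω i
      _ = 2 * K * D * l := by
          rw [sum_const, card_univ, Fintype.card_fin, nsmul_eq_mul]; ring
  have hz0 : (Cw : ℝ) * l < (zz Cw X : ℝ) + 1 := Nat.lt_floor_add_one _
  have hCwr : (2 * K * D + 1 : ℝ) ≤ Cw := by exact_mod_cast hCw
  have hCl : 0 < (Cw : ℝ) * l := by
    have : (0 : ℝ) ≤ 2 * K * D := by positivity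
    nlinarith
  have hsum : ∑ p ∈ Va a \ Pz (zz Cw X), (1 : ℝ) / p ≤ 1 := by
    calc ∑ p ∈ Va a \ Pz (zz Cw X), (1 : ℝ) / p ≤ ∑ _p ∈ Va a \ Pz (zz Cw X), 1 / ((Cw : ℝ) * l) := by
          apply sum_le_sum
          intro p hp
          apply one_div_le_one_div_of_le hCl
          have hpp := hVp p hp
          have hpz : zz Cw X < p := by
            by_contra hle
            push Not at hle
            exact (Finset.mem_sdiff.1 hp).2 (mem_Pz.2 ⟨hle, hpp⟩)
          have h6 : (zz Cw X : ℝ) + 1 ≤ p := by exact_mod_cast hpz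
          linarith
      _ = #(Va a \ Pz (zz Cw X)) * (1 / ((Cw : ℝ) * l)) := by
          rw [sum_const, nsmul_eq_mul]
      _ ≤ (2 * K * D * l) * (1 / ((Cw : ℝ) * l)) := by
          apply mul_le_mul_of_nonneg_right _ (by positivity)
          refine le_trans ?_ hcard
          exact_mod_cast card_le_card sdiff_subset
      _ ≤ 1 := by
          rw [mul_one_div, div_le_one hCl]
          nlinarith
  rw [BE_union]
  have h7 := BE_ge hVp
  have h8 : Real.exp (-5) ≤ BE (Va a \ Pz (zz Cw X)) := by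
    refine le_trans ?_ h7
    apply Real.exp_le_exp.2
    linarith
  have h9 : 0 < BE (Pz (zz Cw X)) := BE_pos fun p hp => (mem_Pz.1 hp).2
  rw [mul_comm]
  exact mul_le_mul_of_nonneg_left h8 h9.le

theorem Wz_eq (Cw : ℕ) (X : ℝ) : Wz Cw X = ∏ p ∈ Pz (zz Cw X), p := rfl

theorem Wz_pf (Cw : ℕ) (X : ℝ) : (Wz Cw X).primeFactors = Pz (zz Cw X) := by
  rw [Wz_eq]
  exact Nat.primeFactors_prod fun p hp => (mem_Pz.1 hp).2

theorem tot_Wz (Cw : ℕ) (X : ℝ) : ((Wz Cw X).totient : ℝ) = Wz Cw X * BE (Pz (zz Cw X)) := by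
  rw [tot_BE, Wz_pf]

theorem not_dvd_Wz {K : ℕ} (Cw : ℕ) (X : ℝ) (a b : Fin K → ℕ) (j : Fin K) :
    ∀ p : ℕ, p.Prime → p ∉ Es (zz Cw X) a b j → ¬ p ∣ Wz Cw X := by
  intro p hp hpE hd
  apply hpE
  unfold Es
  rw [mem_union, mem_union]
  left; left
  rw [← Wz_pf]
  exact Nat.mem_primeFactors.2 ⟨hp, hd, (Wz_pos Cw X).ne'⟩

theorem not_dvd_P {K : ℕ} (Cw : ℕ) (X : ℝ) (a b : Fin K → ℕ) (hpos : ∀ i, 0 < a i) (j : Fin K) :
    ∀ p : ℕ, p.Prime → p ∉ Es (zz Cw X) a b j → ¬ p ∣ Wz Cw X * ∏ i, a i := by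
  intro p hp hpE hd
  rcases (Nat.Prime.dvd_mul hp).1 hd with h | h
  · exact not_dvd_Wz Cw X a b j p hp hpE h
  · obtain ⟨i, _, hi⟩ := (Prime.dvd_finsetProd_iff hp.prime _).1 h
    apply hpE
    unfold Es
    rw [mem_union, mem_union]
    left; right
    exact mem_Va.2 ⟨i, Nat.mem_primeFactors.2 ⟨hp, hi, (hpos i).ne'⟩⟩

end Pool.Agent.H262R2.UP
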