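import Mathlib
import Pool.Agent.H262R2.UP.Sets

open Finset Filter
open scoped ContDiff

/-! Many primes in an admissible system whose leading coefficients avoid few divisors. -/

namespace Pool.Agent.H262R2.UP

open Pool.Agent.H378R2 Pool.Agent.H262R2.UM

theorem Z_le {K0 : ℕ} (LX c BEP BPV : ℝ) (e' : Fin K0 → ℝ) (e : Fin (K0 + 1) → ℝ) (i : Fin (K0 + 1)) (hLX : 0 < LX)
    (he : ∀ j, 0 < e j) (he' : ∀ j, 0 < e' j)
    (h1 : c * BEP ≤ BPV) (h2 : BPV * ∏ j, e' j ≤ e i * ∏ j, e (i.succAbove j)) :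
    c * BEP * LX * (1 / ∏ j, (LX * e j)) ≤ 1 / ∏ j, (LX * e' j) := by
  have h3 : 0 < ∏ j, (LX * e j) := prod_pos fun j _ => mul_pos hLX (he j)
  have h4 : 0 < ∏ j, (LX * e' j) := prod_pos fun j _ => mul_pos hLX (he' j)
  have h4' : 0 < ∏ j, e' j := prod_pos fun j _ => he' j
  rw [mul_one_div, div_le_div_iff₀ h3 h4, one_mul, Fin.prod_univ_succAbove _ i, prod_mul_distrib, prod_mul_distrib,
    prod_const]
  have h5 : c * BEP * ∏ j, e' j ≤ e i * ∏ j, e (i.succAbove j) :=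
    (mul_le_mul_of_nonneg_right h1 h4'.le).trans h2
  have h6 : 0 ≤ LX ^ #(univ : Finset (Fin K0)) * LX := by positivity
  have h7 := mul_le_mul_of_nonneg_left h5 h6
  calc c * BEP * LX * (LX ^ #(univ : Finset (Fin K0)) * ∏ j, e' j) =
      LX ^ #(univ : Finset (Fin K0)) * LX * (c * BEP * ∏ j, e' j) := by ring
    _ ≤ _ := h7
    _ = _ := by ring

theorem mu_lowP {K0 : ℕ} (X W L LX : ℝ) (e : Fin (K0 + 1) → ℝ) (hX : 0 < X) (hW : 0 < W) (he : ∀ j, 0 < e j)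
    (he1 : ∀ j, e j ≤ 1) (hLX : 0 < LX) (hL : LX ≤ L) :
    X / (W * L ^ K0) ≤ (200 * Real.exp 5) * (Real.exp (-5) * (X / (200 * W)) * LX * (1 / ∏ j, (LX * e j))) := by
  have h3 : 0 < ∏ j, (LX * e j) := prod_pos fun j _ => mul_pos hLX (he j)
  have h4 : ∏ j, (LX * e j) ≤ LX ^ (K0 + 1) := by
    calc ∏ j, (LX * e j) ≤ ∏ _j : Fin (K0 + 1), LX := by
          apply Finset.prod_le_prod
          · intro j _
            exact (mul_pos hLX (he j)).le
          · intro j _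
            have := he1 j
            nlinarith
      _ = LX ^ (K0 + 1) := by rw [prod_const, card_univ, Fintype.card_fin]
  have hexp : Real.exp 5 * Real.exp (-5) = 1 := by rw [← Real.exp_add]; norm_num
  have h5 : (200 * Real.exp 5) * (Real.exp (-5) * (X / (200 * W)) * LX * (1 / ∏ j, (LX * e j))) =
      (X / W) * (LX * (1 / ∏ j, (LX * e j))) := by
    calc (200 * Real.exp 5) * (Real.exp (-5) * (X / (200 * W)) * LX * (1 / ∏ j, (LX * e j))) =
        (Real.exp 5 * Real.exp (-5)) * (200 * (X / (200 * W))) * (LX * (1 / ∏ j, (LX * e j))) := by ring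
      _ = _ := by
          rw [hexp, one_mul]
          congr 1
          field_simp
  rw [h5]
  have hL0 : 0 < L := by linarith
  have h6 : 1 / L ^ K0 ≤ LX * (1 / ∏ j, (LX * e j)) := by
    rw [mul_one_div, div_le_div_iff₀ (by positivity) h3, one_mul]
    calc ∏ j, (LX * e j) ≤ LX ^ (K0 + 1) := h4
      _ = LX * LX ^ K0 := by rw [pow_succ]; ring
      _ ≤ LX * L ^ K0 := by
          apply mul_le_mul_of_nonneg_left _ hLX.le
          exact pow_le_pow_left₀ hLX.le hL K0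
  calc X / (W * L ^ K0) = (X / W) * (1 / L ^ K0) := by rw [div_mul_div_comm, mul_one]
    _ ≤ _ := mul_le_mul_of_nonneg_left h6 (by positivity)

theorem HmuP (X N8 W L LX Pr : ℝ) (hX : 0 < X) (hN : N8 ≤ 8 * X) (hW : 0 < W) (hPr : 0 < Pr)
    (hLX : 0 < LX) (hL : L = 200 * LX) :
    3 * L * ((N8 * (1 / W)) * (1 / Pr)) ≤
      (960000 * Real.exp 5) * (Real.exp (-5) * (X / (200 * W)) * LX * (1 / Pr)) := by
  have hexp : Real.exp 5 * Real.exp (-5) = 1 := by rw [← Real.exp_add]; norm_num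
  have h5 : (960000 * Real.exp 5) * (Real.exp (-5) * (X / (200 * W)) * LX * (1 / Pr)) =
      4800 * (LX * (X / W)) * (1 / Pr) := by
    calc (960000 * Real.exp 5) * (Real.exp (-5) * (X / (200 * W)) * LX * (1 / Pr)) =
        (Real.exp 5 * Real.exp (-5)) * (4800 * LX * (200 * (X / (200 * W)))) * (1 / Pr) := by ring
      _ = _ := by
          rw [hexp, one_mul]
          congr 1
          field_simp
  rw [h5, hL]
  calc 3 * (200 * LX) * ((N8 * (1 / W)) * (1 / Pr)) ≤ 3 * (200 * LX) * (((8 * X) * (1 / W)) * (1 / Pr)) := by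
        gcongr
    _ = _ := by ring

set_option maxHeartbeats 16000000 in
theorem coreP (m : ℕ) : ∃ K0 : ℕ, ∀ D : ℕ, ∃ N U : ℕ, ∀ᶠ X : ℝ in atTop, ∀ a b : Fin (K0 + 1) → ℕ, Adm a b →
    (∀ i, 0 < a i ∧ b i ≤ a i) → Function.Injective (fun i => (a i, b i)) →
    (∀ i, (a i : ℝ) ≤ X ^ (1 / 1000 : ℝ)) → (∀ i, (#(a i).divisors : ℝ) ≤ (Real.log X) ^ D) →
    (∀ i, ∀ k : ℕ, X ≤ Real.exp k → Real.exp k ≤ X ^ 2 →
      GGn ⌊(Real.log X) ^ U⌋₊ (Real.exp k) (a i) ≤ Real.exp k / (Real.log X) ^ N) →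
    ∃ n : ℕ, 1 ≤ n ∧ (n : ℝ) ≤ 8 * X ∧
      m ≤ #((univ : Finset (Fin (K0 + 1))).filter (fun i => (a i * n + b i).Prime)) := by
  have he5 : 0 < Real.exp 5 := Real.exp_pos 5
  have hc50 : 0 < 960000 * Real.exp 5 := mul_pos (by norm_num) he5
  obtain ⟨K0, B, f, c, A, hsm, hcs, hf0, hc, hA, hf1, hII, hM⟩ := family (2 * (960000 * Real.exp 5) * m + 3)
  refine ⟨K0, fun D => ?_⟩
  obtain ⟨Cw, hCwdef⟩ : ∃ Cw : ℕ, Cw = 2 * (K0 + 1) * D + 1 := ⟨_, rfl⟩
  have hCw1 : 1 ≤ Cw := by omega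
  obtain ⟨N, U, hbv⟩ := bvs (2 * K0 + 4) Cw
  refine ⟨N, U, ?_⟩
  obtain ⟨c0, hc0, hset⟩ := setfacts2
  obtain ⟨Kr, hKr'⟩ : ∃ Kr : ℝ, Kr = ((K0 + 1 : ℕ) : ℝ) := ⟨_, rfl⟩
  have hKr : (1 : ℝ) ≤ Kr := by
    rw [hKr']; push_cast
    have : (0 : ℝ) ≤ K0 := Nat.cast_nonneg _
    linarith
  have hKr0 : 0 < Kr := by linarith
  obtain ⟨IIv, hIIv⟩ : ∃ IIv : ℝ, IIv = II f A := ⟨_, rfl⟩
  rw [← hIIv] at hII hM
  obtain ⟨ε1, hε1⟩ : ∃ ε1 : ℝ, ε1 = IIv / Kr := ⟨_, rfl⟩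
  have hε1pos : 0 < ε1 := by rw [hε1]; exact div_pos hII hKr0
  have hKε : Kr * ε1 ≤ IIv := by rw [hε1]; field_simp; exact le_rfl
  have hεII : ε1 ≤ IIv := by
    rw [hε1]
    exact div_le_self hII.le hKr
  have hCd0 : 0 ≤ ((K0 + 1 : ℕ) : ℝ) + ((K0 + 1 : ℕ) : ℝ) ^ 2 := by positivity
  obtain ⟨A2, hA2⟩ : ∃ A2 : ℝ, A2 = (A.card : ℝ) ^ 2 := ⟨_, rfl⟩
  have hA20 : 0 ≤ A2 := by rw [hA2]; positivity
  -- constants for the errors
  have hCc10 : 0 ≤ A2 * Kr * (400 * Real.exp 5) / IIv := by positivity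
  have hCc20 : 0 ≤ 3 * m * A2 * (400 * Real.exp 5) / IIv := by positivity
  obtain ⟨X1, hLP⟩ := eventually_atTop.1 LPhi_ge
  filter_upwards [hbv, hset _ hCd0, Em_card (K0 + 1) Cw,
    S1f f c A hsm hcs hf0 hc hA hf1 _ hCd0 Cw hCw1 ε1 hε1pos,
    S2f f c A hsm hcs hf0 hc hA hf1 _ hCd0 Cw hCw1 ε1 hε1pos,
    err_two K0 _ c0 hCc10 hc0, err_one K0 _ hCc20, LL_tendsto.eventually_ge_atTop 1,
    eventually_ge_atTop X1, eventually_ge_atTop (256 : ℝ),
    Pool.Agent.H398R2.BV.ev_log 1 (2 * Cw) (1 / 500) (by norm_num)] with X g1 g2 g3 g6 g7 g8 g9 g10 g11 g12 g13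
  intro a b hadm hab hinj haX hτ hgood
  have hX0 : 0 < X := by linarith
  have hX1 : 1 ≤ X := by linarith
  have hLL : LL X = Real.log X / 200 := rfl
  have hL200 : 200 ≤ Real.log X := by rw [hLL] at g10; linarith
  have hapos : ∀ i, 0 < a i := fun i => (hab i).1
  have haX4 : ∀ i, (a i : ℝ) ≤ X / 4 := by
    intro i
    refine (haX i).trans ?_
    have h1 : X ^ (1 / 1000 : ℝ) ≤ X ^ (1 / 2 : ℝ) := Real.rpow_le_rpow_of_exponent_le hX1 (by norm_num)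
    have h2 : X ^ (1 / 2 : ℝ) = Real.sqrt X := by rw [Real.sqrt_eq_rpow]
    have h3 : Real.sqrt X * Real.sqrt X = X := Real.mul_self_sqrt hX0.le
    have h4 : 16 ≤ Real.sqrt X := by
      apply Real.le_sqrt_of_sq_le
      linarith
    nlinarith
  have hX4 : (4 : ℝ) ≤ X := by linarith
  have hkf := fun i => kk_facts hX4 (hapos i) (haX4 i)
  have hDne := Dsc_ne hadm hapos hinj
  have hcd := g3 a b hadm hab hinj haX
  have hGE := GoodEf_Es (X := X) (Cw := Cw) hDne hcd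
  have hGE' := GoodEf_Ex (X := X) (Cw := Cw) hDne hcd
  have hGF : GoodFf (Es (zz Cw X) a b) a b := GoodFf_Es hadm hapos hinj
  have hEW := not_dvd_Wz Cw X a b
  have hEP := not_dvd_P Cw X a b hapos
  have hkey := key_BE (z := zz Cw X) hadm hapos hinj
  have hVa := BE_Va_ge D Cw (by rw [hCwdef]) X (by
    have := Real.exp_one_lt_d9
    linarith) a hapos hτ
  obtain ⟨a0, ha0⟩ := crt_class hadm (Pz (zz Cw X)) (fun p hp => (mem_Pz.1 hp).2)
  have ha0' : ∀ i, (a i * a0 + b i).Coprime (a i * Wz Cw X) := fun i =>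
    coprime_self_mul (adm_coprime hadm i) (by rw [Wz_eq]; exact ha0 i)
  have hφW := tot_Wz Cw X
  have hWpos : 0 < Wz Cw X := Wz_pos Cw X
  have hWX : (Wz Cw X : ℝ) ≤ X ^ (1 / 500 : ℝ) := by
    refine (Wz_le Cw X (by linarith)).trans ?_
    rw [one_mul] at g13
    exact g13
  have hPWp : ∀ p ∈ Pz (zz Cw X), p.Prime := fun p hp => (mem_Pz.1 hp).2
  have hBEP0 := BE_pos hPWp
  have hBEPl : c0 / Real.log (Real.log X) ≤ BE (Pz (zz Cw X)) := by
    have h1 := (g2 (Em (zz Cw X) a b) (fun p hp => Em_prime hp) hcd).2.2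
    exact h1.trans (BE_anti subset_union_left (fun p hp => Em_prime hp))
  have hBV := fun (i : Fin (K0 + 1)) => g1 (Real.exp (kk X (a i))) (a i) (∏ i, a i) (hkf i).2.2.1 (hkf i).2.2.2
    (hapos i) (haX i) (dvd_prod_of_mem a (mem_univ i)) (hgood i (kk X (a i)) (hkf i).2.2.1 (hkf i).2.2.2)
  generalize hE : Es (zz Cw X) a b = E at hGE hGE' hGF hEW hEP hkey
  generalize hEm : Em (zz Cw X) a b = EEm at hGE hGE'
  generalize hW : Wz Cw X = W at hBV hEW hEP ha0' hφW hWpos hWX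
  generalize hP0 : (∏ i, a i) = P0 at hBV hEP
  generalize hBEP : BE (Pz (zz Cw X)) = BEP at hφW hBEP0 hBEPl hVa
  generalize hBPV : BE (Pz (zz Cw X) ∪ Va a) = BPV at hkey hVa
  -- sizes
  have hEp : ∀ j, ∀ p ∈ E j, p.Prime := fun j p hp => hGE.pr p (hGE.sub j hp)
  have hEp' : ∀ i j, ∀ p ∈ Ex E a b i j, p.Prime := fun i j p hp => (hGE' i).pr p ((hGE' i).sub j hp)
  have hBE0 : ∀ j, 0 < BE (E j) := fun j => BE_pos (hEp j)
  have hBE1 : ∀ j, BE (E j) ≤ 1 := fun j => BE_le_one (hEp j)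
  have hBE0' : ∀ i j, 0 < BE (Ex E a b i j) := fun i j => BE_pos (hEp' i j)
  have hWr : (0 : ℝ) < W := by exact_mod_cast hWpos
  have hLL0 : 0 < LL X := by linarith
  have hLB : 0 < ∏ j, (LL X * BE (E j)) := prod_pos fun j _ => mul_pos hLL0 (hBE0 j)
  have hLB' : ∀ i, 0 < ∏ j, (LL X * BE (Ex E a b i j)) := fun i => prod_pos fun j _ => mul_pos hLL0 (hBE0' i j)
  obtain ⟨μ, hμ⟩ : ∃ μ : ℝ, μ = Real.exp (-5) * (X / (200 * W)) * LL X * (1 / ∏ j, (LL X * BE (E j))) := ⟨_, rfl⟩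
  have hμ0 : 0 < μ := by
    rw [hμ]
    have := Real.exp_pos (-5)
    positivity
  have hμlow : X / (W * (Real.log X) ^ K0) ≤ (200 * Real.exp 5) * μ := by
    rw [hμ]
    exact mu_lowP X W (Real.log X) (LL X) (fun j => BE (E j)) hX0 hWr hBE0 hBE1 hLL0 (by rw [hLL]; linarith)
  -- the sums
  choose Bc hBc1 hBc2 using fun i => Bc_exists (Real.exp (kk X (a i))) (a i * W) (Nat.mul_pos (hapos i) hWpos)
  have hErle : ∀ i, A2 * Kr * Er2 K0 X (Real.exp (kk X (a i))) (a i * W) (W * P0) (Bc i) ≤ IIv * μ / 2 := by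
    intro i
    have h1 := hBV i (Bc i) (hBc1 i)
    have h2 := (BVm_le K0 X (Real.exp (kk X (a i))) (a i * W) W P0 (Bc i)).trans h1
    have h3 := g8 W (a i) (Real.exp (kk X (a i))) BEP _ hWpos hWX (hapos i) (haX i) (Real.exp_pos _) (hkf i).2.1
      (hkf i).2.2.1 hBEPl hφW h2
    have h5 : A2 * Kr * (400 * Real.exp 5) / IIv * Er2 K0 X (Real.exp (kk X (a i))) (a i * W) (W * P0) (Bc i) ≤
        (200 * Real.exp 5) * μ :=
      h3.trans hμlow
    rw [div_mul_eq_mul_div, div_le_iff₀ hII] at h5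
    have h6 : (200 * Real.exp 5) * (2 * (A2 * Kr * Er2 K0 X (Real.exp (kk X (a i))) (a i * W) (W * P0) (Bc i))) ≤
        (200 * Real.exp 5) * (μ * IIv) := by linarith
    have h7 := le_of_mul_le_mul_left h6 (by positivity)
    linarith
  have He2 : 3 * Real.log X * m * (A2 * Real.exp (2 * LL X)) ≤ IIv * μ / 2 := by
    have h5 := (g9 W hWpos hWX).trans hμlow
    rw [div_mul_eq_mul_div, div_le_iff₀ hII] at h5
    have h6 : (200 * Real.exp 5) * (2 * (3 * Real.log X * m * (A2 * Real.exp (2 * LL X)))) ≤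
        (200 * Real.exp 5) * (μ * IIv) := by linarith
    have h7 := le_of_mul_le_mul_left h6 (by positivity)
    linarith
  have hN8 : (⌊8 * X⌋₊ : ℝ) ≤ 8 * X := Nat.floor_le (by linarith)
  have Hμ := HmuP X (⌊8 * X⌋₊ : ℝ) W (Real.log X) (LL X) _ hX0 hN8 hWr hLB hLL0
    (by rw [hLL]; ring)
  rw [← hμ] at Hμ
  have HS1 := g6 EEm E W a0 ⌊8 * X⌋₊ a b hGE hGF hWpos hEW
  rw [← hIIv, ← hA2] at HS1
  obtain ⟨n, hn, hlt⟩ := pos_abs ⌊8 * X⌋₊
    (fun n => cl W a0 n * sqwf E X f A (fun j => (a j : ℤ) * n + b j) ^ 2)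
    (fun n => mul_nonneg (cl_nonneg _ _ _) (sq_nonneg _))
    (fun i n => th (a i * n + b i)) (fun i n => th_nonneg _) Kr hKr' μ IIv ε1 m (960000 * Real.exp 5) A2 (Real.log X)
    (Real.exp (2 * LL X)) _ (JJ f A) (fun i => Er2 K0 X (Real.exp (kk X (a i))) (a i * W) (W * P0) (Bc i))
    (fun i => (LPhi (Real.exp (kk X (a i))) * (1 / ((a i * W).totient : ℝ))) *
      (1 / ∏ j, (LL X * BE (Ex E a b i j))))
    hμ0 hII (Nat.cast_nonneg m) (by linarith) hc50.le hA20 hKε hεII hε1pos.le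
    (fun i => by
      have h1 := mu_le X (Real.exp (kk X (a i))) BEP (1 / ∏ j, (LL X * BE (Ex E a b i j))) (a i) W hX0
        (hkf i).2.2.1 (hapos i) hWpos hBEP0 (one_div_nonneg.2 (hLB' i).le)
        (hkf i).1 hφW (hLP _ (g11.trans (hkf i).2.2.1))
      refine le_trans ?_ h1
      have h2 := Z_le (LL X) (Real.exp (-5)) BEP BPV (fun j => BE (Ex E a b i j)) (fun j => BE (E j)) i hLL0
        hBE0 (hBE0' i) hVa (hkey i)
      have h3 := mul_le_mul_of_nonneg_left h2 (by positivity : 0 ≤ X / (200 * W * BEP))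
      refine le_trans (le_of_eq ?_) h3
      rw [hμ]
      generalize (1 / ∏ j, (LL X * BE (E j))) = t
      field_simp)
    (fun i => Er2_nonneg K0 X _ _ _ _ (hX1.trans (hkf i).2.2.1))
    (fun i => by
      have h1 := g7 i (Real.exp (kk X (a i))) EEm E W a0 (W * P0) a b hGE (hGE' i) hGF hWpos hEW hEP (hab i).2
        (hapos i) (hkf i).1 (hkf i).2.1 (ha0' i) (Bc i) (hBc2 i)
      rw [← hA2] at h1
      refine h1.trans (le_of_eq ?_)
      refine sum_congr rfl fun n _ => ?_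
      ring)
    HS1 Hμ hM hErle He2
  rw [mem_Icc] at hn
  have hn8 : (n : ℝ) ≤ 8 * X := by
    have : (n : ℝ) ≤ ⌊8 * X⌋₊ := by exact_mod_cast hn.2
    linarith
  refine ⟨n, hn.1, hn8, ?_⟩
  exact primes_of_sum (fun i => a i * n + b i) (3 * Real.log X) (by linarith)
    (fun i => log_form X (by linarith) (a i) (b i) n (haX i) (hab i).2 hn8) m hlt

end Pool.Agent.H262R2.UP
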