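import Mathlib
import Pool.Agent.H262R2.UP.Core

open Finset Filter

/-! The final form of the theorem. -/

namespace Pool.Agent.H262R2.UP

open Pool.Agent.H378R2 Pool.Agent.H262R2.UM

/-- the eventual form -/
theorem evP (m : ℕ) : ∃ K : ℕ, ∀ D : ℕ, ∃ C : ℕ, ∀ B : ℕ, ∃ M0 : ℕ, ∀ M : ℕ, M0 ≤ M → ∃ F : Finset ℕ,
    (#F : ℝ) ≤ (Real.log M) ^ C ∧ (∀ f ∈ F, (Real.log M) ^ B < f) ∧
    ∀ a b : Fin K → ℕ, Adm a b → (∀ i, 0 < a i ∧ b i ≤ a i) → Function.Injective (fun i => (a i, b i)) →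
      (∀ i, a i ≤ M) → (∀ i, (#(a i).divisors : ℝ) ≤ (Real.log M) ^ D) → (∀ i, ∀ f ∈ F, ¬ f ∣ a i) →
      ∃ n : ℕ, (n : ℝ) ≤ 8 * (M : ℝ) ^ 1000 ∧ m ≤ #((univ : Finset (Fin K)).filter (fun i => (a i * n + b i).Prime)) := by
  obtain ⟨K0, h⟩ := coreP m
  refine ⟨K0 + 1, fun D => ?_⟩
  obtain ⟨N, U, hcore⟩ := h D
  refine ⟨2 * (N + 2 * U + 2 * D + 13), fun B => ?_⟩
  obtain ⟨X0, hX0⟩ := eventually_atTop.1 (hcore.and (struct2 N U D B))
  obtain ⟨Y0, hY0⟩ := eventually_atTop.1 (Real.tendsto_log_atTop.eventually_ge_atTop (1000 : ℝ))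
  refine ⟨⌈X0⌉₊ + ⌈Y0⌉₊ + 1, fun M hM => ?_⟩
  have hM1 : (1 : ℝ) ≤ M := by
    have : 1 ≤ M := by omega
    exact_mod_cast this
  have hMX : X0 ≤ (M : ℝ) ^ 1000 := by
    have h1 : X0 ≤ ⌈X0⌉₊ := Nat.le_ceil _
    have h2 : ((⌈X0⌉₊ : ℕ) : ℝ) ≤ M := by
      have : ⌈X0⌉₊ ≤ M := by omega
      exact_mod_cast this
    have h3 : (M : ℝ) ≤ (M : ℝ) ^ 1000 := le_self_pow₀ hM1 (by norm_num)
    linarith
  have hMY : 1000 ≤ Real.log M := by
    apply hY0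
    have h1 : Y0 ≤ ⌈Y0⌉₊ := Nat.le_ceil _
    have h2 : ((⌈Y0⌉₊ : ℕ) : ℝ) ≤ M := by
      have : ⌈Y0⌉₊ ≤ M := by omega
      exact_mod_cast this
    linarith
  have hlogX : Real.log ((M : ℝ) ^ 1000) = 1000 * Real.log M := by
    rw [Real.log_pow]; norm_num
  obtain ⟨hc, F, hF1, hF2, hF3⟩ := hX0 _ hMX
  rw [hlogX] at hF1 hF2 hF3 hc
  have hL0 : 0 < Real.log M := by linarith
  refine ⟨F, ?_, ?_, ?_⟩
  · refine hF1.trans ?_
    rw [pow_mul]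
    apply pow_le_pow_left₀ (by positivity)
    rw [sq]
    exact mul_le_mul_of_nonneg_right hMY hL0.le
  · intro f hf
    refine lt_of_le_of_lt ?_ (hF2 f hf)
    apply pow_le_pow_left₀ hL0.le
    linarith
  · intro a b hadm hab hinj haM hτ hFa
    have haX : ∀ i, (a i : ℝ) ≤ ((M : ℝ) ^ 1000) ^ (1 / 1000 : ℝ) := by
      intro i
      have h1 : ((M : ℝ) ^ 1000) ^ (1 / 1000 : ℝ) = M := by
        rw [← Real.rpow_natCast, ← Real.rpow_mul (by linarith)]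
        norm_num
      rw [h1]
      exact_mod_cast haM i
    have hτX : ∀ i, (#(a i).divisors : ℝ) ≤ (1000 * Real.log M) ^ D := by
      intro i
      refine (hτ i).trans ?_
      apply pow_le_pow_left₀ hL0.le
      linarith
    obtain ⟨n, _, hn, hm⟩ := hc a b hadm hab hinj haX hτX
      (fun i => hF3 (a i) (hab i).1 (haX i) (hτX i) (hFa i))
    exact ⟨n, hn, hm⟩

theorem finP (m : ℕ) : ∃ K : ℕ, ∀ D : ℕ, ∃ C : ℕ, ∀ B : ℕ, ∃ γ : ℝ, ∀ M : ℕ, 2 ≤ M → ∃ F : Finset ℕ,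
    (#F : ℝ) ≤ (Real.log M) ^ C ∧ (∀ f ∈ F, (Real.log M) ^ B < f) ∧
    ∀ a b : Fin K → ℕ, Adm a b → (∀ i, 0 < a i ∧ b i ≤ a i) → Function.Injective (fun i => (a i, b i)) →
      (∀ i, a i ≤ M) → (∀ i, (#(a i).divisors : ℝ) ≤ (Real.log M) ^ D) → (∀ i, ∀ f ∈ F, ¬ f ∣ a i) →
      ∃ n : ℕ, (n : ℝ) ≤ γ * (M : ℝ) ^ 1000 ∧ m ≤ #((univ : Finset (Fin K)).filter (fun i => (a i * n + b i).Prime)) := by
  obtain ⟨K, h⟩ := evP m
  refine ⟨K, fun D => ?_⟩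
  obtain ⟨C, hC⟩ := h D
  refine ⟨C, fun B => ?_⟩
  obtain ⟨M0, hM0⟩ := hC B
  obtain ⟨M1, hM1⟩ := hC 1
  -- a scale at which the exceptional divisors exceed `M0`
  have hev : ∀ᶠ M : ℕ in atTop, (M0 : ℝ) ≤ Real.log M :=
    (Real.tendsto_log_atTop.comp tendsto_natCast_atTop_atTop).eventually_ge_atTop _
  obtain ⟨M2, hM2⟩ := eventually_atTop.1 hev
  obtain ⟨M', hM'⟩ : ∃ M' : ℕ, M' = M0 + M1 + M2 + 2 := ⟨_, rfl⟩
  refine ⟨8 * (M' : ℝ) ^ 1000, fun M hM => ?_⟩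
  have hM'1 : (1 : ℝ) ≤ M' := by
    have : 1 ≤ M' := by omega
    exact_mod_cast this
  have hMr : (1 : ℝ) ≤ M := by
    have : 1 ≤ M := by omega
    exact_mod_cast this
  have hMp : (1 : ℝ) ≤ (M : ℝ) ^ 1000 := one_le_pow₀ hMr
  have hM'p : (1 : ℝ) ≤ (M' : ℝ) ^ 1000 := one_le_pow₀ hM'1
  rcases Nat.lt_or_ge M M0 with hlt | hge
  · obtain ⟨F', _, hF2, hF3⟩ := hM1 M' (by omega)
    have hlog0 : 0 ≤ Real.log M := Real.log_nonneg hMr
    refine ⟨∅, ?_, ?_, ?_⟩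
    · rw [card_empty, Nat.cast_zero]
      positivity
    · intro f hf
      exact absurd hf (notMem_empty f)
    · intro a b hadm hab hinj haM hτ _
      have haM' : ∀ i, a i ≤ M' := fun i => (haM i).trans (by omega)
      have hτ' : ∀ i, (#(a i).divisors : ℝ) ≤ (Real.log M') ^ D := by
        intro i
        refine (hτ i).trans ?_
        apply pow_le_pow_left₀ hlog0
        apply Real.log_le_log (by linarith)
        have : M ≤ M' := by omega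
        exact_mod_cast this
      have hFa : ∀ i, ∀ f ∈ F', ¬ f ∣ a i := by
        intro i f hf hd
        have h1 := hF2 f hf
        have h2 := hM2 M' (by omega)
        rw [pow_one] at h1
        have h3 : (M0 : ℝ) < f := lt_of_le_of_lt h2 h1
        have h4 : M0 < f := by exact_mod_cast h3
        have h5 := Nat.le_of_dvd (hab i).1 hd
        have h6 := haM i
        omega
      obtain ⟨n, hn, hm⟩ := hF3 a b hadm hab hinj haM' hτ' hFa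
      refine ⟨n, hn.trans ?_, hm⟩
      have h0 : 0 ≤ 8 * (M' : ℝ) ^ 1000 := by positivity
      nlinarith
  · obtain ⟨F, hF1, hF2, hF3⟩ := hM0 M hge
    refine ⟨F, hF1, hF2, ?_⟩
    intro a b hadm hab hinj haM hτ hFa
    obtain ⟨n, hn, hm⟩ := hF3 a b hadm hab hinj haM hτ hFa
    refine ⟨n, hn.trans ?_, hm⟩
    have h0 : 0 ≤ (M : ℝ) ^ 1000 := by linarith
    nlinarith

end Pool.Agent.H262R2.UP
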